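import Pool.Agent.Work.MP_2f0ece_helper84.Mon

/-!
# The Fermat cubic threefold
-/

set_option autoImplicit false

namespace Pool.Agent.Work.CubicOdd

open MvPolynomial

universe u

variable {K : Type u} [Field K]

/-- the loop form of the Fermat cubic -/
noncomputable def fLoop (K : Type u) [Field K] : MvPolynomial (Fin 5) K :=
  X 1 ^ 2 * X 2 + X 2 ^ 2 * X 1 + X 3 ^ 2 * X 4 + X 4 ^ 2 * X 3 + X 0 ^ 3

theorem fLoop_homogeneous : (fLoop K).IsHomogeneous 3 := by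
  have hX : ∀ i : Fin 5, (X i : MvPolynomial (Fin 5) K).IsHomogeneous 1 := fun i => isHomogeneous_X _ _
  have hXp : ∀ (i : Fin 5) (n : ℕ), (X i ^ n : MvPolynomial (Fin 5) K).IsHomogeneous n :=
    fun i n => isHomogeneous_X_pow _ _
  exact ((((((hXp 1 2).mul (hX 2)).add ((hXp 2 2).mul (hX 1))).add ((hXp 3 2).mul (hX 4))).add
    ((hXp 4 2).mul (hX 3))).add (hXp 0 3))

theorem fLoop_irreducible : Irreducible (fLoop K) := by
  rw [← MulEquiv.irreducible_iff (finSuccEquiv K 4)]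
  have e2 : finSuccEquiv K 4 (fLoop K) =
      Polynomial.X ^ 3 + Polynomial.C 0 * Polynomial.X +
        Polynomial.C (X 0 ^ 2 * X 1 + X 1 ^ 2 * X 0 + X 2 ^ 2 * X 3 + X 3 ^ 2 * X 2) := by
    have h0 : (finSuccEquiv K 4) (X 0) = Polynomial.X := finSuccEquiv_X_zero
    have h1 : (finSuccEquiv K 4) (X 1) = Polynomial.C (X 0) := finSuccEquiv_X_succ (j := 0)
    have h2 : (finSuccEquiv K 4) (X 2) = Polynomial.C (X 1) := finSuccEquiv_X_succ (j := 1)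
    have h3 : (finSuccEquiv K 4) (X 3) = Polynomial.C (X 2) := finSuccEquiv_X_succ (j := 2)
    have h4 : (finSuccEquiv K 4) (X 4) = Polynomial.C (X 3) := finSuccEquiv_X_succ (j := 3)
    rw [fLoop]
    simp only [map_add, map_mul, map_pow, h0, h1, h2, h3, h4, map_zero]
    ring
  rw [e2]
  apply irreducible_cubic
  intro r hr
  let ψ : MvPolynomial (Fin 4) K →ₐ[K] Polynomial K := aeval ![Polynomial.X, 1, 0, 0]
  have h := congrArg ψ hr
  simp only [map_add, map_mul, map_pow, map_zero] at h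
  have p0 : ψ (X 0) = Polynomial.X := by simp [ψ]
  have p1 : ψ (X 1) = 1 := by simp [ψ]
  have p2 : ψ (X 2) = 0 := by simp [ψ]
  have p3 : ψ (X 3) = 0 := by simp [ψ]
  rw [p0, p1, p2, p3] at h
  have h' : ψ r ^ 3 = - (Polynomial.X ^ 2 + Polynomial.X) := by linear_combination h
  have h3 := congrArg Polynomial.natDegree h'
  have h4 : (Polynomial.X ^ 2 + Polynomial.X : Polynomial K).natDegree = 2 := by
    compute_degree!
  rw [Polynomial.natDegree_pow, Polynomial.natDegree_neg, h4] at h3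
  omega

/-- exponents of the parametrization, `p = 3 k - 1` -/
def fξ (k : ℤ) : Fin 5 → Fin 4 → ℤ :=
  ![![0, 0, 0, 0], ![2, 2, 2 * k - 1, 0], ![-1, -1, 1 - k, 0], ![0, 2, 0, 2 * k - 1],
    ![0, -1, 0, 1 - k]]

def fW (k : ℤ) : Fin 4 → Fin 5 → ℤ :=
  ![![0, 1 - k, 1 - 2 * k, k - 1, 2 * k - 1], ![0, 0, 0, 1 - k, 1 - 2 * k], ![0, 1, 2, 0, 0],
    ![0, 0, 0, 1, 2]]

theorem fW_mul (k : ℤ) (b : Fin 4) : ∑ a, fW k b a • (fξ k a - fξ k 0) =
      (![![1, 0, 0, 0], ![0, 1, 0, 0], ![0, 0, 1, 0], ![0, 0, 0, 1]] : Fin 4 → Fin 4 → ℤ) b := by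
  funext c
  rw [Fin.sum_univ_five]
  fin_cases b <;> fin_cases c <;> simp [fW, fξ] <;> ring

theorem fermat_main (p : ℕ) [hp : Fact p.Prime] [CharP K p] (hp2 : p % 3 = 2) :
    ∃ γ : Fin 5 → L3 K, aeval γ (fLoop K) = 0 ∧
      (∃ c : L3 K, aeval (Fin.cons c (Fin.tail γ) : Fin 5 → L3 K) (fLoop K) ≠ 0) ∧
      γ 0 ≠ 0 ∧
      Module.finrank (IntermediateField.adjoin K (Set.range fun i => γ i / γ 0)) (L3 K) = p := by
  obtain ⟨k, hk⟩ : ∃ k : ℤ, (p : ℤ) = 3 * k - 1 := ⟨(p + 1) / 3, by omega⟩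
  have hp0 : p ≠ 0 := hp.out.ne_zero
  have h3 : (3 : ℕ) ≠ 0 := by norm_num
  have ev : ∀ γ : Fin 5 → L3 K, aeval γ (fLoop K) =
      γ 1 ^ 2 * γ 2 + γ 2 ^ 2 * γ 1 + γ 3 ^ 2 * γ 4 + γ 4 ^ 2 * γ 3 + γ 0 ^ 3 := by
    intro γ
    simp only [fLoop, map_add, map_mul, map_pow, aeval_X]
  have h0 : (mon p 3 0 3 (fξ k 0) : L3 K) = 1 := by
    have : fξ k 0 = 0 := by funext c; fin_cases c <;> rfl
    rw [this, mon_zero]
  have hF : aeval (fun i => (mon p 3 0 3 (fξ k i) : L3 K)) (fLoop K) = 0 := by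
    rw [ev, h0]
    have e1 : (mon p 3 0 3 (fξ k 1) : L3 K) ^ 2 * mon p 3 0 3 (fξ k 2) =
        mon p 3 0 3 (0 + ![((3 : ℕ) : ℤ) + ((0 : ℕ) : ℤ), ((3 : ℕ) : ℤ), (p : ℤ), 0]) := by
      rw [mon_sq h3 h3 hp0, hk]
      congr 1; funext c; fin_cases c <;> simp [fξ] <;> ring
    have e2 : (mon p 3 0 3 (fξ k 2) : L3 K) ^ 2 * mon p 3 0 3 (fξ k 1) =
        mon p 3 0 3 (0 + ![0, 0, 1, 0]) := by
      rw [mon_sq h3 h3 hp0]
      congr 1; funext c; fin_cases c <;> simp [fξ]; ring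
    have e3 : (mon p 3 0 3 (fξ k 3) : L3 K) ^ 2 * mon p 3 0 3 (fξ k 4) =
        mon p 3 0 3 (0 + ![((0 : ℕ) : ℤ), ((3 : ℕ) : ℤ), 0, (p : ℤ)]) := by
      rw [mon_sq h3 h3 hp0, hk]
      congr 1; funext c; fin_cases c <;> simp [fξ] <;> ring
    have e4 : (mon p 3 0 3 (fξ k 4) : L3 K) ^ 2 * mon p 3 0 3 (fξ k 3) =
        mon p 3 0 3 (0 + ![0, 0, 0, 1]) := by
      rw [mon_sq h3 h3 hp0]
      congr 1; funext c; fin_cases c <;> simp [fξ]; ring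
    have h := mon_rel (K := K) (p := p) (d := 3) (e := 0) (f := 3) h3 h3 0
    rw [mon_zero] at h
    rw [e1, e2, e3, e4]
    linear_combination h
  refine ⟨fun i => mon p 3 0 3 (fξ k i), hF, ⟨0, ?_⟩, mon_ne_zero h3 h3 hp0 _, ?_⟩
  · rw [ev] at hF
    rw [ev]
    change mon p 3 0 3 (fξ k 1) ^ 2 * mon p 3 0 3 (fξ k 2) +
      mon p 3 0 3 (fξ k 2) ^ 2 * mon p 3 0 3 (fξ k 1) +
      mon p 3 0 3 (fξ k 3) ^ 2 * mon p 3 0 3 (fξ k 4) +
      mon p 3 0 3 (fξ k 4) ^ 2 * mon p 3 0 3 (fξ k 3) + 0 ^ 3 ≠ 0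
    rw [h0] at hF
    intro h
    have : (1 : L3 K) = 0 := by linear_combination hF - h
    exact one_ne_zero this
  · exact mon_finrank (e := 0) h3 h3 (fξ k) 0 (fW k) (fW_mul k)

end Pool.Agent.Work.CubicOdd
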