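import Pool.Agent.Work.MP_2f0ece_helper84.CharThree

/-!
# A family of cubic threefolds in characteristic three: the parametrization
-/

set_option autoImplicit false

namespace Pool.Agent.Work.CubicOdd

open MvPolynomial

universe u

section Fix

variable {K : Type u} [Field K]

/-- the field of constants of a deformation of the identity -/
noncomputable def fixF {L : Type*} [Field L] [Algebra K L] (Φ : L →ₐ[K] TrivSqZeroExt L L) :
    IntermediateField K L where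
  carrier := {x | Φ x = TrivSqZeroExt.inl x}
  mul_mem' := by
    intro a b ha hb
    simp only [Set.mem_ofPred_eq] at *
    rw [map_mul, ha, hb, TrivSqZeroExt.inl_mul_inl]
  add_mem' := by
    intro a b ha hb
    simp only [Set.mem_ofPred_eq] at *
    rw [map_add, ha, hb, TrivSqZeroExt.inl_add]
  algebraMap_mem' := by
    intro r
    simp only [Set.mem_ofPred_eq]
    rw [AlgHom.commutes, TrivSqZeroExt.algebraMap_eq_inl']
  inv_mem' := by
    intro x hx
    simp only [Set.mem_ofPred_eq] at *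
    exact fixed_adjoin Φ {x} (by intro s hs; rw [Set.mem_singleton_iff.1 hs]; exact hx) x⁻¹
      (inv_mem (IntermediateField.subset_adjoin K _ rfl))

theorem mem_fixF {L : Type*} [Field L] [Algebra K L] (Φ : L →ₐ[K] TrivSqZeroExt L L) (x : L) :
    x ∈ fixF Φ ↔ Φ x = TrivSqZeroExt.inl x := Iff.rfl

/-- an intermediate field containing the three variables is everything -/
theorem eq_top_of_X (N : IntermediateField K (L3 K))
    (h : ∀ i, algebraMap (MvPolynomial (Fin 3) K) (L3 K) (X i) ∈ N) : N = ⊤ := by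
  rw [eq_top_iff]
  intro x _
  obtain ⟨p, q, hq, rfl⟩ := IsFractionRing.div_surjective (A := MvPolynomial (Fin 3) K) x
  have hpol : ∀ p : MvPolynomial (Fin 3) K, algebraMap (MvPolynomial (Fin 3) K) (L3 K) p ∈ N := by
    intro p
    induction p using MvPolynomial.induction_on with
    | C a =>
      have : algebraMap (MvPolynomial (Fin 3) K) (L3 K) (C a) = algebraMap K (L3 K) a := by
        rw [IsScalarTower.algebraMap_apply K (MvPolynomial (Fin 3) K) (L3 K)]; rfl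
      rw [this]; exact N.algebraMap_mem a
    | add p q hp hq => rw [map_add]; exact N.add_mem hp hq
    | mul_X p i hp => rw [map_mul]; exact N.mul_mem hp (h i)
  exact N.div_mem (hpol p) (hpol q)

/-- the degree of `K(X_0,X_1,X_2)` over a subfield `M` of constants of a deformation -/
theorem finrank_eq_of_dual (p : ℕ) [hp : Fact p.Prime] [CharP K p]
    (Φ : L3 K →ₐ[K] TrivSqZeroExt (L3 K) (L3 K)) (M : IntermediateField K (L3 K))
    (hM : M ≤ fixF Φ) (T : L3 K) (hT : T ∉ fixF Φ) (hTp : T ^ p ∈ M)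
    (h : ∀ N : IntermediateField K (L3 K), M ≤ N → T ∈ N → N = ⊤) :
    Module.finrank M (L3 K) = p := by
  apply finrank_of_root p M T hTp (fun h => hT (hM h))
  set N := IntermediateField.adjoin M {T}
  have h1 := h (N.restrictScalars K) (fun x hx => N.algebraMap_mem ⟨x, hx⟩)
    (IntermediateField.subset_adjoin M _ rfl)
  rw [eq_top_iff]
  intro x _
  have : x ∈ N.restrictScalars K := by rw [h1]; trivial
  exact this

end Fix

section Step

variable {K : Type u} [Field K] {L : Type*} [Field L] [Algebra K L]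

theorem deriv_cube (h3 : (3 : L) = 0) (x y : L) :
    (TrivSqZeroExt.inl x + TrivSqZeroExt.inr y : TrivSqZeroExt L L) ^ 3 =
      TrivSqZeroExt.inl (x ^ 3) := by
  ext
  · simp
  · simp [TrivSqZeroExt.snd_pow, h3]

theorem inr_neg_eq (t : L) : (TrivSqZeroExt.inr (-t) : TrivSqZeroExt L L) =
    - (TrivSqZeroExt.inl t * TrivSqZeroExt.inr 1) := by
  rw [TrivSqZeroExt.inl_mul_inr]; simp

theorem deriv_step (Φ : L →ₐ[K] TrivSqZeroExt L L) (h3 : (3 : L) = 0) (ρ m t θ Y l e D : L)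
    (hΦρ : Φ ρ = TrivSqZeroExt.inl ρ + TrivSqZeroExt.inr 1)
    (hΦm : Φ m = TrivSqZeroExt.inl m + TrivSqZeroExt.inr (-t))
    (mθ : θ ∈ fixF Φ) (mY : Y ∈ fixF Φ) (ml : l ∈ fixF Φ) (me : e ∈ fixF Φ)
    (hD : D = θ * ρ + Y + l) (hD0 : D ≠ 0) (htD : t * D + (m ^ 3 + θ * m + e) = 0) :
    t ∈ fixF Φ := by
  have e1 := congrArg Φ htD
  rw [map_add, map_add, map_add, map_mul, map_mul, map_pow, map_zero, hΦm, deriv_cube h3, hD,
    map_add, map_add, map_mul, hΦρ, (mem_fixF _ _).1 mθ, (mem_fixF _ _).1 mY, (mem_fixF _ _).1 ml,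
    (mem_fixF _ _).1 me] at e1
  have e2 := congrArg (TrivSqZeroExt.inl : L → TrivSqZeroExt L L) htD
  have e3 : (Φ t - TrivSqZeroExt.inl t) *
      (TrivSqZeroExt.inl θ * (TrivSqZeroExt.inl ρ + TrivSqZeroExt.inr 1) +
        TrivSqZeroExt.inl Y + TrivSqZeroExt.inl l) = 0 := by
    rw [hD] at e2
    simp only [TrivSqZeroExt.inl_add, TrivSqZeroExt.inl_mul, TrivSqZeroExt.inl_zero] at e1 e2
    rw [inr_neg_eq] at e1
    linear_combination e1 - e2
  have hunit : IsUnit ((TrivSqZeroExt.inl θ * (TrivSqZeroExt.inl ρ + TrivSqZeroExt.inr 1) +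
        TrivSqZeroExt.inl Y + TrivSqZeroExt.inl l : TrivSqZeroExt L L)) := by
    rw [TrivSqZeroExt.isUnit_iff_isUnit_fst, isUnit_iff_ne_zero]
    simp only [TrivSqZeroExt.fst_add, TrivSqZeroExt.fst_mul, TrivSqZeroExt.fst_inl,
      TrivSqZeroExt.fst_inr, add_zero]
    rw [← hD]; exact hD0
  rw [mem_fixF]
  exact sub_eq_zero.1 ((hunit.mul_left_eq_zero).1 e3)

theorem z_step (Φ : L →ₐ[K] TrivSqZeroExt L L) (ρ m t w : L)
    (hΦρ : Φ ρ = TrivSqZeroExt.inl ρ + TrivSqZeroExt.inr 1)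
    (hΦm : Φ m = TrivSqZeroExt.inl m + TrivSqZeroExt.inr (-t))
    (mt : t ∈ fixF Φ) (mw : w ∈ fixF Φ) : m + ρ * t - w ∈ fixF Φ := by
  rw [mem_fixF, map_sub, map_add, map_mul, (mem_fixF _ _).1 mw, (mem_fixF _ _).1 mt, hΦm, hΦρ]
  simp only [TrivSqZeroExt.inl_add, TrivSqZeroExt.inl_mul, TrivSqZeroExt.inl_sub]
  rw [inr_neg_eq]; ring

/-- the identity behind the parametrization -/
theorem fam_identity (h3 : (3 : L) = 0) (A θ l κ ρ m t z y Y b e D : L) (hA0 : A ≠ 0)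
    (hY : Y = A ^ 2 * ρ ^ 3) (hb : b = θ - A ^ 2) (he : e = (Y ^ 2 - b ^ 2) / A + κ)
    (hD : D = θ * ρ + Y + l) (htD : t * D + (m ^ 3 + θ * m + e) = 0)
    (hz : z = m + ρ * t - t ^ 2 / A)
    (hy : y = t ^ 3 / A ^ 2 + t ^ 2 / A - t + (Y + b) / A) :
    z ^ 3 + θ * z + y * t ^ 2 + A * y ^ 2 + (θ - A ^ 2) * y + l * t + κ = 0 := by
  have key : z ^ 3 + θ * z + y * t ^ 2 + A * y ^ 2 + (θ - A ^ 2) * y + l * t + κ =
      (t * D + (m ^ 3 + θ * m + e)) + 3 * (-A ^ 3 * ρ ^ 3 + A ^ 3 - A ^ 2 * ρ ^ 3 * t + A ^ 2 * t +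
        A * θ * ρ ^ 3 - 2 * A * θ + A * ρ ^ 3 * t ^ 2 - A * t ^ 2 - θ * t + ρ ^ 3 * t ^ 3 +
        ρ ^ 2 * m * t ^ 2 + ρ * m ^ 2 * t - 2 * t ^ 3 + θ ^ 2 / A + θ * t ^ 2 / A -
        ρ ^ 2 * t ^ 4 / A - 2 * ρ * m * t ^ 3 / A - m ^ 2 * t ^ 2 / A + θ * t ^ 3 / A ^ 2 +
        ρ * t ^ 5 / A ^ 2 + m * t ^ 4 / A ^ 2 + t ^ 5 / A ^ 2) := by
    rw [hz, hy, hD, he, hY, hb]
    field_simp
    ring
  rw [key, htD, h3]; ring

theorem rho_cube (A ρ t y Y b : L) (hA0 : A ≠ 0) (hY : Y = A ^ 2 * ρ ^ 3)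
    (hy : y = t ^ 3 / A ^ 2 + t ^ 2 / A - t + (Y + b) / A) :
    ρ ^ 3 = (A * (y - (t ^ 3 / A ^ 2 + t ^ 2 / A - t)) - b) / A ^ 2 := by
  rw [hy, hY]
  field_simp
  ring

end Step

section Param

variable {K : Type u} [Field K] [CharP K 3]

omit [CharP K 3] in
theorem form_ne_zero {a : Fin 2 → K} (ha : a ≠ 0) : form1 a (Polynomial.X : Polynomial K) 1 ≠ 0 := by
  intro h
  apply ha
  have h1 := congrArg (fun p => Polynomial.coeff p 0) h
  have h2 := congrArg (fun p => Polynomial.coeff p 1) h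
  simp [form1] at h1 h2
  funext i
  fin_cases i
  · simpa using h2
  · simpa using h1

/-- `K[X_0,X_1,X_2] → K[X][Y]`, `X_0 ↦ X`, `X_1 ↦ Y`, `X_2 ↦ 0` -/
noncomputable def toPP : MvPolynomial (Fin 3) K →ₐ[K] Polynomial (Polynomial K) :=
  aeval ![Polynomial.C Polynomial.X, Polynomial.X, 0]

theorem param_exists (a : Fin 2 → K) (ha : a ≠ 0) (q l : Fin 3 → K) (k : Fin 4 → K) :
    ∃ γ : Fin 5 → L3 K, aeval γ (fam a q l k) = 0 ∧
      (∃ c : L3 K, aeval (Fin.cons c (Fin.tail γ) : Fin 5 → L3 K) (fam a q l k) ≠ 0) ∧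
      γ 2 = 1 ∧
      Module.finrank (IntermediateField.adjoin K (Set.range fun i => γ i / γ 2)) (L3 K) = 3 := by
  have : Fact (Nat.Prime 3) := ⟨Nat.prime_three⟩
  have hcL : CharP (L3 K) 3 := charP_of_injective_algebraMap (algebraMap K (L3 K)).injective 3
  have h3 : (3 : L3 K) = 0 := by exact_mod_cast CharP.cast_eq_zero (L3 K) 3
  let am : MvPolynomial (Fin 3) K →ₐ[K] L3 K := Algebra.algHom K _ _
  have ham : Function.Injective am := IsFractionRing.injective (MvPolynomial (Fin 3) K) (L3 K)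
  obtain ⟨c, hc⟩ : ∃ c : L3 K, c = am (X 0) := ⟨_, rfl⟩
  obtain ⟨ρ, hρ⟩ : ∃ c : L3 K, c = am (X 1) := ⟨_, rfl⟩
  obtain ⟨m, hm⟩ : ∃ c : L3 K, c = am (X 2) := ⟨_, rfl⟩
  obtain ⟨A, hA⟩ : ∃ A : L3 K, A = form1 a c 1 := ⟨_, rfl⟩
  obtain ⟨θ, hθ⟩ : ∃ A : L3 K, A = form2 q c 1 := ⟨_, rfl⟩
  obtain ⟨l', hl'⟩ : ∃ A : L3 K, A = form2 l c 1 := ⟨_, rfl⟩
  obtain ⟨κ, hκ⟩ : ∃ A : L3 K, A = form3 k c 1 := ⟨_, rfl⟩
  have hA' : A = am (form1 a (X 0) 1) := by rw [map_form1, map_one, ← hc, hA]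
  have hθ' : θ = am (form2 q (X 0) 1) := by rw [map_form2, map_one, ← hc, hθ]
  have hl'' : l' = am (form2 l (X 0) 1) := by rw [map_form2, map_one, ← hc, hl']
  have hpp0 : toPP (K := K) (X 0) = Polynomial.C Polynomial.X := by simp [toPP]
  have hpp1 : toPP (K := K) (X 1) = Polynomial.X := by simp [toPP]
  let Cc : Polynomial K →ₐ[K] Polynomial (Polynomial K) := IsScalarTower.toAlgHom K _ _
  have hCc : ∀ x, Polynomial.C x = Cc x := fun _ => rfl
  have hA0 : A ≠ 0 := by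
    rw [hA']
    intro h
    have h1 : form1 a (X 0 : MvPolynomial (Fin 3) K) 1 = 0 := ham (by rw [h, map_zero])
    have h2 := congrArg toPP h1
    rw [map_form1, map_one, hpp0, map_zero, hCc, ← map_one Cc, ← map_form1] at h2
    exact form_ne_zero ha (Polynomial.C_injective (by rw [hCc, h2, map_zero]))
  obtain ⟨Y, hY⟩ : ∃ Y : L3 K, Y = A ^ 2 * ρ ^ 3 := ⟨_, rfl⟩
  obtain ⟨b, hb⟩ : ∃ Y : L3 K, Y = θ - A ^ 2 := ⟨_, rfl⟩
  obtain ⟨e, he⟩ : ∃ e : L3 K, e = (Y ^ 2 - b ^ 2) / A + κ := ⟨_, rfl⟩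
  obtain ⟨D, hD⟩ : ∃ D : L3 K, D = θ * ρ + Y + l' := ⟨_, rfl⟩
  have hD0 : D ≠ 0 := by
    intro h
    have h1 : form2 q (X 0 : MvPolynomial (Fin 3) K) 1 * X 1 +
        form1 a (X 0 : MvPolynomial (Fin 3) K) 1 ^ 2 * X 1 ^ 3 + form2 l (X 0) 1 = 0 := by
      apply ham
      rw [map_zero, map_add, map_add, map_mul, map_mul, map_pow, map_pow, ← hθ', ← hA', ← hl'', ← hρ,
        ← hY, ← hD, h]
    have h2 := congrArg toPP h1
    rw [map_add, map_add, map_mul, map_mul, map_pow, map_pow, map_form1, map_form2, map_form2,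
      map_one, hpp0, hpp1, map_zero, hCc, ← map_one Cc, ← map_form1, ← map_form2, ← map_form2,
      ← map_pow, ← hCc, ← hCc, ← hCc] at h2
    have h4 := congrArg (fun p => Polynomial.coeff p 3) h2
    simp only [← Polynomial.C_pow, Polynomial.coeff_add, Polynomial.coeff_C_mul,
      Polynomial.coeff_X_pow, Polynomial.coeff_X, Polynomial.coeff_C, Polynomial.coeff_zero] at h4
    norm_num at h4
    exact form_ne_zero ha h4
  obtain ⟨t, ht⟩ : ∃ t : L3 K, t = -(m ^ 3 + θ * m + e) / D := ⟨_, rfl⟩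
  have htD : t * D + (m ^ 3 + θ * m + e) = 0 := by
    rw [ht, div_mul_cancel₀ _ hD0]; ring
  obtain ⟨z, hz⟩ : ∃ z : L3 K, z = m + ρ * t - t ^ 2 / A := ⟨_, rfl⟩
  obtain ⟨y, hy⟩ : ∃ y : L3 K, y = t ^ 3 / A ^ 2 + t ^ 2 / A - t + (Y + b) / A := ⟨_, rfl⟩
  have hF : z ^ 3 + θ * z + y * t ^ 2 + A * y ^ 2 + (θ - A ^ 2) * y + l' * t + κ = 0 := by
    exact fam_identity h3 A θ l' κ ρ m t z y Y b e D hA0 hY hb he hD htD hz hy
  refine ⟨![z, c, 1, y, t], ?_, ⟨z + ρ, ?_⟩, rfl, ?_⟩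
  · rw [aeval_fam]
    change z ^ 3 + form2 q c 1 * z + y * t ^ 2 + form1 a c 1 * y ^ 2 +
      (form2 q c 1 - form1 a c 1 ^ 2) * y + form2 l c 1 * t + form3 k c 1 = 0
    rw [← hθ, ← hA, ← hl', ← hκ, hF]
  · rw [aeval_fam]
    change (z + ρ) ^ 3 + form2 q c 1 * (z + ρ) + y * t ^ 2 + form1 a c 1 * y ^ 2 +
      (form2 q c 1 - form1 a c 1 ^ 2) * y + form2 l c 1 * t + form3 k c 1 ≠ 0
    rw [← hθ, ← hA, ← hl', ← hκ]
    have e1 : (z + ρ) ^ 3 + θ * (z + ρ) + y * t ^ 2 + A * y ^ 2 + (θ - A ^ 2) * y + l' * t + κ =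
        ρ ^ 3 + θ * ρ := by
      linear_combination hF + (z ^ 2 * ρ + z * ρ ^ 2) * h3
    rw [e1]
    intro h
    have h1 : (X 1 : MvPolynomial (Fin 3) K) ^ 3 + form2 q (X 0) 1 * X 1 = 0 := by
      apply ham
      rw [map_zero, map_add, map_mul, map_pow, ← hθ', ← hρ, h]
    have h2 := congrArg toPP h1
    rw [map_add, map_mul, map_pow, map_form2, map_one, hpp0, hpp1, map_zero, hCc, ← map_one Cc,
      ← map_form2, ← hCc] at h2
    have h4 := congrArg (fun p => Polynomial.coeff p 3) h2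
    simp at h4
  · -- the degree
    obtain ⟨Φ, hΦ⟩ := exists_dual (K := K) ![0, 1, -t]
    have hΦc : Φ c = TrivSqZeroExt.inl c := by
      have := hΦ 0
      rw [hc]
      refine this.trans ?_
      simp
      rfl
    have hΦρ : Φ ρ = TrivSqZeroExt.inl ρ + TrivSqZeroExt.inr 1 := by
      rw [hρ]; exact hΦ 1
    have hΦm : Φ m = TrivSqZeroExt.inl m + TrivSqZeroExt.inr (-t) := by
      rw [hm]; exact hΦ 2
    have mc : c ∈ fixF Φ := hΦc
    have hcube := deriv_cube (L := L3 K) h3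
    have mρ3 : ρ ^ 3 ∈ fixF Φ := by
      rw [mem_fixF, map_pow, hΦρ, hcube]
    have mA : A ∈ fixF Φ := by
      rw [hA, form1]
      exact add_mem (mul_mem (algebraMap_mem _ _) mc) (mul_mem (algebraMap_mem _ _) (one_mem _))
    have hf2 : ∀ q : Fin 3 → K, ∀ N : IntermediateField K (L3 K), c ∈ N → form2 q c 1 ∈ N := by
      intro q N hcN
      rw [form2]
      exact add_mem (add_mem (mul_mem (algebraMap_mem _ _) (pow_mem hcN 2))
        (mul_mem (mul_mem (algebraMap_mem _ _) hcN) (one_mem _)))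
        (mul_mem (algebraMap_mem _ _) (pow_mem (one_mem _) 2))
    have mθ : θ ∈ fixF Φ := by rw [hθ]; exact hf2 q _ mc
    have ml : l' ∈ fixF Φ := by rw [hl']; exact hf2 l _ mc
    have mκ : κ ∈ fixF Φ := by
      rw [hκ, form3]
      exact add_mem (add_mem (add_mem (mul_mem (algebraMap_mem _ _) (pow_mem mc 3))
        (mul_mem (mul_mem (algebraMap_mem _ _) (pow_mem mc 2)) (one_mem _)))
        (mul_mem (mul_mem (algebraMap_mem _ _) mc) (pow_mem (one_mem _) 2)))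
        (mul_mem (algebraMap_mem _ _) (pow_mem (one_mem _) 3))
    have mY : Y ∈ fixF Φ := by rw [hY]; exact mul_mem (pow_mem mA 2) mρ3
    have mb : b ∈ fixF Φ := by rw [hb]; exact sub_mem mθ (pow_mem mA 2)
    have me : e ∈ fixF Φ := by
      rw [he]; exact add_mem (div_mem (sub_mem (pow_mem mY 2) (pow_mem mb 2)) mA) mκ
    have mt : t ∈ fixF Φ := deriv_step Φ h3 ρ m t θ Y l' e D hΦρ hΦm mθ mY ml me hD hD0 htD
    have my : y ∈ fixF Φ := by
      rw [hy]
      exact add_mem (sub_mem (add_mem (div_mem (pow_mem mt 3) (pow_mem mA 2))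
        (div_mem (pow_mem mt 2) mA)) mt) (div_mem (add_mem mY mb) mA)
    have mz : z ∈ fixF Φ := by
      rw [hz]
      exact z_step Φ ρ m t (t ^ 2 / A) hΦρ hΦm mt (div_mem (pow_mem mt 2) mA)
    set M := IntermediateField.adjoin K (Set.range fun i => (![z, c, 1, y, t] : Fin 5 → L3 K) i /
      (![z, c, 1, y, t] : Fin 5 → L3 K) 2) with hM
    have hgen : ∀ i, (![z, c, 1, y, t] : Fin 5 → L3 K) i ∈ M := by
      intro i
      have : (![z, c, 1, y, t] : Fin 5 → L3 K) i = (![z, c, 1, y, t] : Fin 5 → L3 K) i /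
          (![z, c, 1, y, t] : Fin 5 → L3 K) 2 := by
        have : (![z, c, 1, y, t] : Fin 5 → L3 K) 2 = 1 := rfl
        rw [this, div_one]
      rw [this]
      exact IntermediateField.subset_adjoin _ _ ⟨i, rfl⟩
    have nz : z ∈ M := hgen 0
    have nc : c ∈ M := hgen 1
    have ny : y ∈ M := hgen 3
    have nt : t ∈ M := hgen 4
    have nA : A ∈ M := by
      rw [hA, form1]
      exact add_mem (mul_mem (algebraMap_mem _ _) nc) (mul_mem (algebraMap_mem _ _) (one_mem _))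
    have nθ : θ ∈ M := by rw [hθ]; exact hf2 q _ nc
    apply finrank_eq_of_dual 3 Φ M ?_ ρ ?_ ?_ ?_
    · rw [hM, IntermediateField.adjoin_le_iff]
      rintro _ ⟨i, rfl⟩
      have : (![z, c, 1, y, t] : Fin 5 → L3 K) 2 = 1 := rfl
      rw [SetLike.mem_coe]
      simp only [this, div_one]
      fin_cases i
      · exact mz
      · exact mc
      · exact one_mem _
      · exact my
      · exact mt
    · intro h
      rw [mem_fixF, hΦρ] at h
      have := congrArg TrivSqZeroExt.snd h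
      simp at this
    · rw [rho_cube A ρ t y Y b hA0 hY hy, hb]
      exact div_mem (sub_mem (mul_mem nA (sub_mem ny (sub_mem (add_mem (div_mem (pow_mem nt 3)
        (pow_mem nA 2)) (div_mem (pow_mem nt 2) nA)) nt))) (sub_mem nθ (pow_mem nA 2)))
        (pow_mem nA 2)
    · intro N hMN hρN
      apply eq_top_of_X
      intro i
      fin_cases i
      · exact (show am (X 0) ∈ N from hc ▸ hMN nc)
      · exact (show am (X 1) ∈ N from hρ ▸ hρN)
      · have e1 : am (X 2) = z + t ^ 2 / A - ρ * t := by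
          rw [← hm, hz]; ring
        exact (show am (X 2) ∈ N from e1 ▸ sub_mem (add_mem (hMN nz)
          (div_mem (pow_mem (hMN nt) 2) (hMN nA))) (mul_mem hρN (hMN nt)))

end Param

end Pool.Agent.Work.CubicOdd
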