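import Mathlib

/-!
# Cubic threefolds with a parametrization of odd degree: general lemmas

Degrees of purely inseparable extensions, kernels of parametrizations, linear changes of
coordinates.
-/

set_option autoImplicit false

namespace Pool.Agent.Work.CubicOdd

open MvPolynomial

section Deriv

variable {K : Type*} [Field K]

/-- The rational function field in three variables. -/
abbrev L3 (K : Type*) [Field K] := FractionRing (MvPolynomial (Fin 3) K)

/-- a deformation of the identity of `K(X_0,X_1,X_2)` in a given direction -/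
theorem exists_dual (d : Fin 3 → L3 K) :
    ∃ Φ : L3 K →ₐ[K] TrivSqZeroExt (L3 K) (L3 K),
      ∀ i, Φ (algebraMap (MvPolynomial (Fin 3) K) (L3 K) (X i)) =
        TrivSqZeroExt.inl (algebraMap (MvPolynomial (Fin 3) K) (L3 K) (X i)) +
          TrivSqZeroExt.inr (d i) := by
  let f : MvPolynomial (Fin 3) K →ₐ[K] TrivSqZeroExt (L3 K) (L3 K) :=
    aeval (fun i => TrivSqZeroExt.inl (algebraMap (MvPolynomial (Fin 3) K) (L3 K) (X i)) +
      TrivSqZeroExt.inr (d i))
  have hfst : ∀ y, (f y).fst = algebraMap (MvPolynomial (Fin 3) K) (L3 K) y := by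
    intro y
    have : (TrivSqZeroExt.fstHom K (L3 K) (L3 K)).comp f =
        Algebra.algHom K (MvPolynomial (Fin 3) K) (L3 K) := by
      apply MvPolynomial.algHom_ext
      intro i
      simp only [AlgHom.comp_apply, f, aeval_X]
      simp
      rfl
    exact DFunLike.congr_fun this y
  have hunit : ∀ y : nonZeroDivisors (MvPolynomial (Fin 3) K), IsUnit (f y) := by
    intro y
    rw [TrivSqZeroExt.isUnit_iff_isUnit_fst, hfst, isUnit_iff_ne_zero]
    exact IsFractionRing.to_map_ne_zero_of_mem_nonZeroDivisors y.2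
  refine ⟨IsLocalization.liftAlgHom (M := nonZeroDivisors (MvPolynomial (Fin 3) K)) (f := f)
    hunit, fun i => ?_⟩
  rw [IsLocalization.liftAlgHom_apply, IsLocalization.lift_eq]
  simp [f]

/-- elements fixed by a deformation of the identity form an intermediate field -/
theorem fixed_adjoin {L : Type*} [Field L] [Algebra K L] (Φ : L →ₐ[K] TrivSqZeroExt L L)
    (S : Set L) (hS : ∀ s ∈ S, Φ s = TrivSqZeroExt.inl s) :
    ∀ x ∈ IntermediateField.adjoin K S, Φ x = TrivSqZeroExt.inl x := by
  intro x hx
  induction hx using IntermediateField.adjoin_induction with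
  | mem x hx => exact hS x hx
  | algebraMap x =>
    rw [AlgHom.commutes, TrivSqZeroExt.algebraMap_eq_inl']
  | add x y _ _ hx hy => rw [map_add, hx, hy, TrivSqZeroExt.inl_add]
  | inv x _ hx =>
    by_cases h0 : x = 0
    · subst h0; simp
    · have h1 : Φ x * Φ x⁻¹ = 1 := by rw [← map_mul, mul_inv_cancel₀ h0, map_one]
      rw [hx] at h1
      have h2 : (TrivSqZeroExt.inl x⁻¹ : TrivSqZeroExt L L) * TrivSqZeroExt.inl x = 1 := by
        rw [TrivSqZeroExt.inl_mul_inl, inv_mul_cancel₀ h0, TrivSqZeroExt.inl_one]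
      calc Φ x⁻¹ = (TrivSqZeroExt.inl x⁻¹ * TrivSqZeroExt.inl x) * Φ x⁻¹ := by rw [h2, one_mul]
        _ = TrivSqZeroExt.inl x⁻¹ := by rw [mul_assoc, h1, mul_one]
  | mul x y _ _ hx hy => rw [map_mul, hx, hy, TrivSqZeroExt.inl_mul_inl]

/-- degree of an extension generated by one `p`-th root -/
theorem finrank_of_root {L : Type*} [Field L] [Algebra K L] (p : ℕ) [hp : Fact p.Prime]
    [CharP K p] (M : IntermediateField K L) (T : L) (h1 : T ^ p ∈ M) (h2 : T ∉ M)
    (h3 : IntermediateField.adjoin M {T} = ⊤) : Module.finrank M L = p := by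
  have hcL : CharP L p := charP_of_injective_algebraMap (algebraMap K L).injective p
  have hirr : Irreducible (Polynomial.X ^ p - Polynomial.C (⟨T ^ p, h1⟩ : M)) := by
    apply X_pow_sub_C_irreducible_of_prime hp.out
    intro b hb
    apply h2
    have hb' : (b : L) ^ p = T ^ p := congrArg (algebraMap M L) hb
    have : (b : L) = T := by
      have h5 : ((b : L) - T) ^ p = 0 := by
        rw [sub_pow_char, hb', sub_self]
      exact sub_eq_zero.1 (pow_eq_zero_iff hp.out.ne_zero |>.1 h5)
    rw [← this]; exact b.2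
  have hmonic : (Polynomial.X ^ p - Polynomial.C (⟨T ^ p, h1⟩ : M)).Monic :=
    Polynomial.monic_X_pow_sub_C _ hp.out.ne_zero
  have hroot : Polynomial.aeval T (Polynomial.X ^ p - Polynomial.C (⟨T ^ p, h1⟩ : M)) = 0 := by
    simp only [map_sub, map_pow, Polynomial.aeval_X, Polynomial.aeval_C]
    exact sub_eq_zero.2 rfl
  have hmin := minpoly.eq_of_irreducible_of_monic hirr hroot hmonic
  have hint : IsIntegral M T := ⟨_, hmonic, hroot⟩
  have hf := IntermediateField.adjoin.finrank hint
  rw [← hmin, Polynomial.natDegree_X_pow_sub_C, h3, IntermediateField.finrank_top'] at hf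
  exact hf

end Deriv

end Pool.Agent.Work.CubicOdd
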