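import Pool.Agent.Work.MP_2f0ece_helper84.Trdeg

/-!
# Linear changes of coordinates and the general criterion
-/

set_option autoImplicit false

namespace Pool.Agent.Work.CubicOdd

open MvPolynomial

universe u

variable {K : Type u} [Field K]

/-- `F (A x)`: the substitution of the linear forms given by the rows of `A` -/
noncomputable def linSub (A : Matrix (Fin 5) (Fin 5) K) :
    MvPolynomial (Fin 5) K →ₐ[K] MvPolynomial (Fin 5) K :=
  aeval (fun i => ∑ j, C (A i j) * X j)

/-- dehomogenization at the first variable -/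
noncomputable def dehom : MvPolynomial (Fin 5) K →ₐ[K] MvPolynomial (Fin 4) K :=
  aeval (Fin.cons (1 : MvPolynomial (Fin 4) K) X : Fin 5 → MvPolynomial (Fin 4) K)

/-- homogenization -/
noncomputable def hom (H : MvPolynomial (Fin 4) K) : MvPolynomial (Fin 5) K :=
  ∑ m ∈ H.support, C (coeff m H) * X 0 ^ (H.totalDegree - m.degree) * ∏ j : Fin 4, X j.succ ^ (m j)

theorem dehom_hom (H : MvPolynomial (Fin 4) K) : dehom (hom H) = H := by
  rw [hom, map_sum]
  conv_rhs => rw [MvPolynomial.as_sum H]
  refine Finset.sum_congr rfl fun m _ => ?_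
  rw [map_mul, map_mul, map_pow, map_prod, dehom]
  simp only [map_pow, aeval_X, Fin.cons_zero, Fin.cons_succ, one_pow, mul_one]
  rw [monomial_eq, aeval_C, MvPolynomial.algebraMap_eq]
  congr 1
  rw [Finsupp.prod_fintype _ _ (fun i => pow_zero _)]

theorem aeval_hom {E : Type*} [CommRing E] [Algebra K E] (H : MvPolynomial (Fin 4) K) (a : E)
    (x : Fin 4 → E) :
    aeval (Fin.cons a (fun j => a * x j) : Fin 5 → E) (hom H) = a ^ H.totalDegree * aeval x H := by
  rw [hom, map_sum]
  conv_rhs => rw [MvPolynomial.as_sum H, map_sum, Finset.mul_sum]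
  rw [← MvPolynomial.as_sum H]
  refine Finset.sum_congr rfl fun m hm => ?_
  rw [map_mul, map_mul, map_pow, map_prod]
  simp only [map_pow, aeval_X, Fin.cons_zero, Fin.cons_succ, aeval_C]
  rw [monomial_eq, map_mul, aeval_C, Finsupp.prod_fintype _ _ (fun i => pow_zero _), map_prod]
  simp only [map_pow, aeval_X, mul_pow]
  rw [Finset.prod_mul_distrib, Finset.prod_pow_eq_pow_sum]
  have h1 : ∑ i : Fin 4, m i = m.degree := by
    rw [Finsupp.degree_eq_sum]
  have h2 : m.degree ≤ H.totalDegree := by
    have := MvPolynomial.le_totalDegree hm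
    rwa [Finsupp.degree_apply] 
  rw [h1]
  calc _ = algebraMap K E (coeff m H) * (a ^ (H.totalDegree - m.degree) * a ^ m.degree) *
        ∏ i, x i ^ m i := by ring
    _ = _ := by rw [← pow_add, Nat.sub_add_cancel h2]; ring

theorem aeval_linSub {E : Type*} [CommRing E] [Algebra K E] (A : Matrix (Fin 5) (Fin 5) K)
    (H : MvPolynomial (Fin 5) K) (x : Fin 5 → E) :
    aeval x (linSub A H) = aeval (fun i => ∑ j, algebraMap K E (A i j) * x j) H := by
  have : (aeval x : MvPolynomial (Fin 5) K →ₐ[K] E).comp (linSub A) =
      aeval (fun i => ∑ j, algebraMap K E (A i j) * x j) := by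
    apply MvPolynomial.algHom_ext
    intro i
    rw [AlgHom.comp_apply, linSub, aeval_X, aeval_X, map_sum]
    refine Finset.sum_congr rfl fun j _ => ?_
    rw [map_mul, aeval_C, aeval_X]
  exact DFunLike.congr_fun this H

theorem linSub_linSub (A B : Matrix (Fin 5) (Fin 5) K) (h : B * A = 1)
    (H : MvPolynomial (Fin 5) K) : linSub A (linSub B H) = H := by
  have : (linSub A).comp (linSub B) = AlgHom.id K _ := by
    apply MvPolynomial.algHom_ext
    intro i
    rw [AlgHom.comp_apply, AlgHom.id_apply]
    conv_lhs => rw [linSub, linSub]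
    rw [aeval_X, map_sum]
    simp only [map_mul, aeval_C, aeval_X, MvPolynomial.algebraMap_eq]
    simp_rw [Finset.mul_sum, ← mul_assoc, ← C_mul]
    rw [Finset.sum_comm]
    simp_rw [← Finset.sum_mul, ← map_sum]
    have h1 : ∀ k, ∑ j, B i j * A j k = if i = k then 1 else 0 := by
      intro k
      have := congrFun (congrFun h i) k
      rw [Matrix.mul_apply, Matrix.one_apply] at this
      exact this
    simp_rw [h1]
    rw [Finset.sum_eq_single i]
    · simp
    · intro b _ hb
      rw [if_neg (fun h => hb h.symm)]; simp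
    · simp
  exact DFunLike.congr_fun this H

theorem linSub_isHomogeneous (A : Matrix (Fin 5) (Fin 5) K) (F : MvPolynomial (Fin 5) K) (n : ℕ)
    (hF : F.IsHomogeneous n) : (linSub A F).IsHomogeneous n := by
  have h1 : ∀ i : Fin 5, (∑ j, C (A i j) * X j : MvPolynomial (Fin 5) K).IsHomogeneous 1 := by
    intro i
    exact IsHomogeneous.sum _ _ _ fun j _ => isHomogeneous_C_mul_X _ _
  have := hF.aeval (fun i => ∑ j, C (A i j) * X j) h1
  rwa [one_mul] at this

/-- **General criterion.** -/
theorem main_abs (F : MvPolynomial (Fin 5) K) (hF : F.IsHomogeneous 3) (hirr : Irreducible F)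
    (γ : Fin 5 → L3 K)
    (h0 : aeval γ F = 0) (c : L3 K) (hc : aeval (Fin.cons c (Fin.tail γ) : Fin 5 → L3 K) F ≠ 0)
    (k : Fin 5) (hk : γ k ≠ 0) (d : ℕ) (hd0 : d ≠ 0)
    (hd : Module.finrank (IntermediateField.adjoin K (Set.range fun i => γ i / γ k)) (L3 K) = d)
    (A : Matrix (Fin 5) (Fin 5) K) (hA : IsUnit A.det) :
    ∃ g : Fin 4 → FractionRing (MvPolynomial (Fin 3) K),
      RingHom.ker (MvPolynomial.aeval (R := K) g) =
        Ideal.span {MvPolynomial.aeval
          (Fin.cons (1 : MvPolynomial (Fin 4) K) MvPolynomial.X :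
            Fin 5 → MvPolynomial (Fin 4) K) (linSub A F)} ∧
      Module.finrank (IntermediateField.adjoin K (Set.range g))
        (FractionRing (MvPolynomial (Fin 3) K)) = d := by
  have hfd : Module.Finite (IntermediateField.adjoin K (Set.range fun i => γ i / γ k)) (L3 K) :=
    Module.finite_of_finrank_pos (by omega)
  have halg : Algebra.IsAlgebraic (IntermediateField.adjoin K (Set.range fun i => γ i / γ k))
      (L3 K) := Algebra.IsAlgebraic.of_finite _ _
  set B := A⁻¹ with hB
  have hAB : A * B = 1 := Matrix.mul_nonsing_inv A hA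
  have hBA : B * A = 1 := Matrix.nonsing_inv_mul A hA
  set γ' : Fin 5 → (L3 K) := fun i => ∑ j, algebraMap K (L3 K) (B i j) * γ j with hγ'
  have hback : ∀ i, ∑ j, algebraMap K (L3 K) (A i j) * γ' j = γ i := by
    intro i
    simp only [hγ', Finset.mul_sum, ← mul_assoc, ← map_mul]
    rw [Finset.sum_comm]
    simp_rw [← Finset.sum_mul, ← map_sum]
    have h1 : ∀ k, ∑ j, A i j * B j k = if i = k then 1 else 0 := by
      intro k
      have := congrFun (congrFun hAB i) k
      rw [Matrix.mul_apply, Matrix.one_apply] at this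
      exact this
    simp_rw [h1]
    rw [Finset.sum_eq_single i]
    · simp
    · intro b _ hb
      rw [if_neg (fun h => hb h.symm)]; simp
    · simp
  set F' := linSub A F with hF'
  have hF'h : F'.IsHomogeneous 3 := linSub_isHomogeneous A F 3 hF
  have hF'0 : aeval γ' F' = 0 := by
    rw [hF', aeval_linSub]
    have : (fun i => ∑ j, algebraMap K (L3 K) (A i j) * γ' j) = γ := funext hback
    rw [this, h0]
  have hF'ne : F' ≠ 0 := by
    intro h
    apply hirr.ne_zero
    rw [← linSub_linSub B A hAB F, ← hF', h, map_zero]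
  -- the cone kernel in the new coordinates
  have hcone : ∀ H : MvPolynomial (Fin 5) K, aeval (cone γ') H = 0 → F' ∣ H := by
    intro H hH
    have h1 : aeval (cone γ) (linSub B H) = 0 := by
      rw [aeval_linSub]
      have : (fun i => ∑ j, algebraMap K (RatFunc (L3 K)) (B i j) * cone γ j) = cone γ' := by
        funext i
        rw [cone, hγ', map_sum, Finset.mul_sum]
        refine Finset.sum_congr rfl fun j _ => ?_
        rw [cone, map_mul, ← IsScalarTower.algebraMap_apply K (L3 K) (RatFunc (L3 K))]
        ring
      rw [this, hH]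
    have h2 := cone_kernel γ F hF hirr h0 c hc k hk halg _ h1
    have h3 := map_dvd (linSub A) h2
    rwa [linSub_linSub A B hBA] at h3
  have hγ'0 : γ' 0 ≠ 0 := by
    intro h
    have h1 : F' ∣ X 0 := by
      apply hcone
      rw [aeval_X, cone, h, map_zero, mul_zero]
    obtain ⟨R, hR⟩ := h1
    have hRne : R ≠ 0 := by
      rintro rfl
      rw [mul_zero] at hR
      exact X_ne_zero _ hR
    have h2 := MvPolynomial.totalDegree_mul_of_isDomain hF'ne hRne
    rw [← hR, totalDegree_X, hF'h.totalDegree hF'ne] at h2
    omega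
  set g : Fin 4 → (L3 K) := fun j => γ' j.succ / γ' 0 with hg
  have hcons : γ' = fun i => γ' 0 * (Fin.cons 1 g : Fin 5 → (L3 K)) i := by
    funext i
    refine Fin.cases ?_ (fun j => ?_) i
    · simp
    · rw [Fin.cons_succ]
      exact (mul_div_cancel₀ _ hγ'0).symm
  refine ⟨g, ?_, ?_⟩
  · ext H
    rw [RingHom.mem_ker, Ideal.mem_span_singleton]
    constructor
    · intro hH
      have h1 : aeval (cone γ') (hom H) = 0 := by
        have h2 : cone γ' = (Fin.cons (cone γ' 0)
            (fun j => cone γ' 0 * algebraMap (L3 K) (RatFunc (L3 K)) (g j)) : Fin 5 → RatFunc (L3 K)) := by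
          funext i
          refine Fin.cases ?_ (fun j => ?_) i
          · rfl
          · rw [Fin.cons_succ, cone, cone, mul_assoc, ← map_mul]
            congr 2
            exact (mul_div_cancel₀ _ hγ'0).symm
        rw [h2, aeval_hom]
        have h3 : aeval (fun j => algebraMap (L3 K) (RatFunc (L3 K)) (g j)) H =
            algebraMap (L3 K) (RatFunc (L3 K)) (aeval g H) :=
          MvPolynomial.aeval_algebraMap_apply (RatFunc (L3 K)) g H
        rw [h3]
        have h4 : aeval g H = 0 := hH
        rw [h4, map_zero, mul_zero]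
      have h2 := map_dvd dehom (hcone _ h1)
      rwa [dehom_hom] at h2
    · rintro ⟨R, hR⟩
      have h1 : aeval (Fin.cons 1 g : Fin 5 → (L3 K)) F' = 0 := by
        rw [hcons] at hF'0
        rw [aeval_scale F' hF'h] at hF'0
        exact (mul_eq_zero.1 hF'0).resolve_left (pow_ne_zero 3 hγ'0)
      have h2 : aeval g (dehom F') = aeval (Fin.cons 1 g : Fin 5 → (L3 K)) F' := by
        have : (aeval g : MvPolynomial (Fin 4) K →ₐ[K] (L3 K)).comp dehom =
            aeval (Fin.cons 1 g : Fin 5 → (L3 K)) := by
          apply MvPolynomial.algHom_ext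
          intro i
          rw [AlgHom.comp_apply, dehom, aeval_X, aeval_X]
          refine Fin.cases ?_ (fun j => ?_) i
          · simp
          · simp
        exact DFunLike.congr_fun this F'
      have h3 : aeval g H = 0 := by
        rw [hR, map_mul]
        change aeval g (dehom F') * _ = 0
        rw [h2, h1, zero_mul]
      exact h3
  · have hfield : IntermediateField.adjoin K (Set.range g) =
        IntermediateField.adjoin K (Set.range fun i => γ i / γ k) := by
      apply le_antisymm
      · rw [IntermediateField.adjoin_le_iff]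
        rintro _ ⟨j, rfl⟩
        have h1 : ∀ i, γ' i / γ k ∈ IntermediateField.adjoin K (Set.range fun i => γ i / γ k) := by
          intro i
          simp only [hγ']
          rw [Finset.sum_div]
          refine sum_mem fun l _ => ?_
          rw [mul_div_assoc]
          exact mul_mem (IntermediateField.algebraMap_mem _ _)
            (IntermediateField.subset_adjoin _ _ ⟨l, rfl⟩)
        have h2 : g j = (γ' j.succ / γ k) / (γ' 0 / γ k) := by
          rw [div_div_div_cancel_right₀ hk]
        rw [SetLike.mem_coe, h2]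
        exact div_mem (h1 _) (h1 _)
      · rw [IntermediateField.adjoin_le_iff]
        rintro _ ⟨i, rfl⟩
        have h0' : ∀ j, γ' j / γ' 0 ∈ IntermediateField.adjoin K (Set.range g) := by
          intro j
          refine Fin.cases ?_ (fun l => ?_) j
          · rw [div_self hγ'0]; exact one_mem _
          · exact IntermediateField.subset_adjoin _ _ ⟨l, rfl⟩
        have h1 : ∀ i, γ i / γ' 0 ∈ IntermediateField.adjoin K (Set.range g) := by
          intro i
          rw [← hback i, Finset.sum_div]
          refine sum_mem fun l _ => ?_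
          rw [mul_div_assoc]
          exact mul_mem (IntermediateField.algebraMap_mem _ _) (h0' l)
        have h2 : γ i / γ k = (γ i / γ' 0) / (γ k / γ' 0) := by
          rw [div_div_div_cancel_right₀ hγ'0]
        change γ i / γ k ∈ _
        rw [h2]
        exact div_mem (h1 _) (h1 _)
    rw [hfield]
    exact hd

end Pool.Agent.Work.CubicOdd
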