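import Pool.Agent.Work.MP_2f0ece_helper84.Change

/-!
# A family of cubic threefolds in characteristic three
-/

set_option autoImplicit false

namespace Pool.Agent.Work.CubicOdd

open MvPolynomial

universe u

/-- a monic cubic without roots is irreducible -/
theorem irreducible_cubic {A : Type*} [CommRing A] [IsDomain A] (q g : A)
    (h : ∀ r : A, r ^ 3 + q * r + g ≠ 0) :
    Irreducible (Polynomial.X ^ 3 + Polynomial.C q * Polynomial.X + Polynomial.C g) := by
  have hdeg : (Polynomial.X ^ 3 + Polynomial.C q * Polynomial.X + Polynomial.C g).natDegree = 3 := by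
    compute_degree!
  have hm : (Polynomial.X ^ 3 + Polynomial.C q * Polynomial.X + Polynomial.C g).Monic := by
    monicity!
  rw [hm.irreducible_iff_roots_eq_zero_of_degree_le_three (by omega) (by omega)]
  rw [Multiset.eq_zero_iff_forall_notMem]
  intro r hr
  have := Polynomial.isRoot_of_mem_roots hr
  apply h r
  simpa [Polynomial.IsRoot] using this

section Ring

variable {K : Type u} [Field K]

/-- `a_0 U + a_1 V` -/
noncomputable def form1 {R : Type*} [CommRing R] [Algebra K R] (a : Fin 2 → K) (U V : R) : R :=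
  algebraMap K R (a 0) * U + algebraMap K R (a 1) * V

/-- `q_0 U ^ 2 + q_1 U V + q_2 V ^ 2` -/
noncomputable def form2 {R : Type*} [CommRing R] [Algebra K R] (q : Fin 3 → K) (U V : R) : R :=
  algebraMap K R (q 0) * U ^ 2 + algebraMap K R (q 1) * U * V + algebraMap K R (q 2) * V ^ 2

/-- `k_0 U ^ 3 + k_1 U ^ 2 V + k_2 U V ^ 2 + k_3 V ^ 3` -/
noncomputable def form3 {R : Type*} [CommRing R] [Algebra K R] (k : Fin 4 → K) (U V : R) : R :=
  algebraMap K R (k 0) * U ^ 3 + algebraMap K R (k 1) * U ^ 2 * V +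
    algebraMap K R (k 2) * U * V ^ 2 + algebraMap K R (k 3) * V ^ 3

/-- the family
`z^3 + q(u,v) z + y t^2 + a(u,v) y^2 + (q(u,v) - a(u,v)^2) y + l(u,v) t + k(u,v)`,
in the variables `z, u, v, y, t` -/
noncomputable def fam (a : Fin 2 → K) (q l : Fin 3 → K) (k : Fin 4 → K) :
    MvPolynomial (Fin 5) K :=
  X 0 ^ 3 + form2 q (X 1) (X 2) * X 0 + X 3 * X 4 ^ 2 + form1 a (X 1) (X 2) * X 3 ^ 2 +
    (form2 q (X 1) (X 2) - form1 a (X 1) (X 2) ^ 2) * X 3 + form2 l (X 1) (X 2) * X 4 +
    form3 k (X 1) (X 2)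

variable {R S : Type*} [CommRing R] [Algebra K R] [CommRing S] [Algebra K S]

theorem map_form1 (f : R →ₐ[K] S) (a : Fin 2 → K) (U V : R) :
    f (form1 a U V) = form1 a (f U) (f V) := by
  simp [form1]

theorem map_form2 (f : R →ₐ[K] S) (q : Fin 3 → K) (U V : R) :
    f (form2 q U V) = form2 q (f U) (f V) := by
  simp [form2]

theorem map_form3 (f : R →ₐ[K] S) (k : Fin 4 → K) (U V : R) :
    f (form3 k U V) = form3 k (f U) (f V) := by
  simp [form3]

theorem aeval_fam (a : Fin 2 → K) (q l : Fin 3 → K) (k : Fin 4 → K) (x : Fin 5 → R) :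
    aeval x (fam a q l k) =
      x 0 ^ 3 + form2 q (x 1) (x 2) * x 0 + x 3 * x 4 ^ 2 + form1 a (x 1) (x 2) * x 3 ^ 2 +
        (form2 q (x 1) (x 2) - form1 a (x 1) (x 2) ^ 2) * x 3 + form2 l (x 1) (x 2) * x 4 +
        form3 k (x 1) (x 2) := by
  simp only [fam, map_add, map_mul, map_sub, map_pow, map_form1, map_form2, map_form3, aeval_X]

theorem fam_homogeneous (a : Fin 2 → K) (q l : Fin 3 → K) (k : Fin 4 → K) :
    (fam a q l k).IsHomogeneous 3 := by
  have hX : ∀ i : Fin 5, (X i : MvPolynomial (Fin 5) K).IsHomogeneous 1 := fun i => isHomogeneous_X _ _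
  have hXp : ∀ (i : Fin 5) (n : ℕ), (X i ^ n : MvPolynomial (Fin 5) K).IsHomogeneous n :=
    fun i n => isHomogeneous_X_pow _ _
  have hC : ∀ r : K, (algebraMap K (MvPolynomial (Fin 5) K) r).IsHomogeneous 0 :=
    fun r => isHomogeneous_C _ _
  have h1 : (form1 a (X 1) (X 2) : MvPolynomial (Fin 5) K).IsHomogeneous 1 := by
    exact ((hC _).mul (hX 1)).add ((hC _).mul (hX 2))
  have h2 : ∀ q : Fin 3 → K, (form2 q (X 1) (X 2) : MvPolynomial (Fin 5) K).IsHomogeneous 2 := by
    intro q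
    exact (((hC _).mul (hXp 1 2)).add (((hC _).mul (hX 1)).mul (hX 2))).add ((hC _).mul (hXp 2 2))
  have h3 : (form3 k (X 1) (X 2) : MvPolynomial (Fin 5) K).IsHomogeneous 3 := by
    exact ((((hC _).mul (hXp 1 3)).add (((hC _).mul (hXp 1 2)).mul (hX 2))).add
      (((hC _).mul (hX 1)).mul (hXp 2 2))).add ((hC _).mul (hXp 2 3))
  have h1' : (form1 a (X 1) (X 2) ^ 2 : MvPolynomial (Fin 5) K).IsHomogeneous 2 := h1.pow 2
  exact (((((((hXp 0 3).add ((h2 q).mul (hX 0))).add ((hX 3).mul (hXp 4 2))).add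
    (h1.mul (hXp 3 2))).add (((h2 q).sub h1').mul (hX 3))).add ((h2 l).mul (hX 4))).add h3)

theorem fam_irreducible (a : Fin 2 → K) (q l : Fin 3 → K) (k : Fin 4 → K) :
    Irreducible (fam a q l k) := by
  rw [← MulEquiv.irreducible_iff (finSuccEquiv K 4)]
  have e1 : ∀ (f : MvPolynomial (Fin 5) K →ₐ[K] Polynomial (MvPolynomial (Fin 4) K)),
      f (fam a q l k) = f (X 0) ^ 3 + form2 q (f (X 1)) (f (X 2)) * f (X 0) + f (X 3) * f (X 4) ^ 2 +
        form1 a (f (X 1)) (f (X 2)) * f (X 3) ^ 2 +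
        (form2 q (f (X 1)) (f (X 2)) - form1 a (f (X 1)) (f (X 2)) ^ 2) * f (X 3) +
        form2 l (f (X 1)) (f (X 2)) * f (X 4) + form3 k (f (X 1)) (f (X 2)) := by
    intro f
    simp only [fam, map_add, map_mul, map_sub, map_pow, map_form1, map_form2, map_form3]
  let Cc : MvPolynomial (Fin 4) K →ₐ[K] Polynomial (MvPolynomial (Fin 4) K) :=
    IsScalarTower.toAlgHom K (MvPolynomial (Fin 4) K) (Polynomial (MvPolynomial (Fin 4) K))
  have e2 : finSuccEquiv K 4 (fam a q l k) =
      Polynomial.X ^ 3 + Polynomial.C (form2 q (X 0) (X 1)) * Polynomial.X +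
        Polynomial.C (X 2 * X 3 ^ 2 + form1 a (X 0) (X 1) * X 2 ^ 2 +
          (form2 q (X 0) (X 1) - form1 a (X 0) (X 1) ^ 2) * X 2 + form2 l (X 0) (X 1) * X 3 +
          form3 k (X 0) (X 1)) := by
    set f := (finSuccEquiv K 4).toAlgHom with hf
    have h0 : f (X 0) = Polynomial.X := finSuccEquiv_X_zero
    have h1 : f (X 1) = Cc (X 0) := finSuccEquiv_X_succ (j := 0)
    have h2 : f (X 2) = Cc (X 1) := finSuccEquiv_X_succ (j := 1)
    have h3 : f (X 3) = Cc (X 2) := finSuccEquiv_X_succ (j := 2)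
    have h4 : f (X 4) = Cc (X 3) := finSuccEquiv_X_succ (j := 3)
    have h5 := e1 f
    rw [h0, h1, h2, h3, h4] at h5
    refine h5.trans ?_
    have hCc : ∀ x, Polynomial.C x = Cc x := fun _ => rfl
    rw [hCc, hCc]
    simp only [map_add, map_mul, map_sub, map_pow, map_form1, map_form2, map_form3]
    ring
  rw [e2]
  apply irreducible_cubic
  intro r hr
  let ψ : MvPolynomial (Fin 4) K →ₐ[K] Polynomial K := aeval ![0, 0, 1, Polynomial.X]
  have h := congrArg ψ hr
  simp only [map_add, map_mul, map_sub, map_pow, map_form1, map_form2, map_form3, map_zero] at h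
  have p0 : ψ (X 0) = 0 := by simp [ψ]
  have p1 : ψ (X 1) = 0 := by simp [ψ]
  have p2 : ψ (X 2) = 1 := by simp [ψ]
  have p3 : ψ (X 3) = Polynomial.X := by simp [ψ]
  rw [p0, p1, p2, p3] at h
  have h' : ψ r ^ 3 = - Polynomial.X ^ 2 := by
    have : form2 q (0 : Polynomial K) 0 = 0 := by simp [form2]
    rw [this] at h
    have t2 : form1 a (0 : Polynomial K) 0 = 0 := by simp [form1]
    have t3 : form2 l (0 : Polynomial K) 0 = 0 := by simp [form2]
    have t4 : form3 k (0 : Polynomial K) 0 = 0 := by simp [form3]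
    rw [t2, t3, t4] at h
    linear_combination h
  have h3 := congrArg Polynomial.natDegree h'
  rw [Polynomial.natDegree_pow, Polynomial.natDegree_neg, Polynomial.natDegree_X_pow] at h3
  omega

end Ring

end Pool.Agent.Work.CubicOdd
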