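import Pool.Agent.Work.MP_2f0ece_helper84.Fermat

/-!
# The Fermat cubic threefold: the final statement
-/

set_option autoImplicit false

namespace Pool.Agent.Work.CubicOdd

open MvPolynomial

universe u

variable {K : Type u} [Field K]

/-- the change of coordinates from the loop form to the Fermat form -/
def fA (w : K) : Matrix (Fin 5) (Fin 5) K :=
  !![1, 0, 0, 0, 0; 0, -1, -1, 0, 0; 0, -w, -w ^ 2, 0, 0; 0, 0, 0, -1, -1; 0, 0, 0, -w, -w ^ 2]

def fAi (w δ : K) : Matrix (Fin 5) (Fin 5) K :=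
  !![1, 0, 0, 0, 0; 0, -w ^ 2 * δ, δ, 0, 0; 0, w * δ, -δ, 0, 0; 0, 0, 0, -w ^ 2 * δ, δ;
    0, 0, 0, w * δ, -δ]

theorem fA_mul (w δ : K) (hδ : (w ^ 2 - w) * δ = 1) : fA w * fAi w δ = 1 := by
  ext i j
  rw [Matrix.mul_apply, Fin.sum_univ_five, Matrix.one_apply]
  fin_cases i <;> fin_cases j <;> simp [fA, fAi] <;>
    first
      | linear_combination hδ
      | ring1

theorem linSub_fA (w : K) (hw : w ^ 2 + w + 1 = 0) :
    linSub (fA w) (fLoop K) = ∑ i : Fin 5, X i ^ 3 := by
  have hC : (C w : MvPolynomial (Fin 5) K) ^ 2 + C w + 1 = 0 := by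
    rw [← C_pow, ← C_add, ← C_1, ← C_add, hw, C_0]
  have r0 : (∑ j, C (fA w 0 j) * X j : MvPolynomial (Fin 5) K) = X 0 := by
    simp [Fin.sum_univ_five, fA]
  have r1 : (∑ j, C (fA w 1 j) * X j : MvPolynomial (Fin 5) K) = -X 1 - X 2 := by
    simp [Fin.sum_univ_five, fA]; ring
  have r2 : (∑ j, C (fA w 2 j) * X j : MvPolynomial (Fin 5) K) = -C w * X 1 - C w ^ 2 * X 2 := by
    simp [Fin.sum_univ_five, fA]; ring
  have r3 : (∑ j, C (fA w 3 j) * X j : MvPolynomial (Fin 5) K) = -X 3 - X 4 := by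
    simp [Fin.sum_univ_five, fA]; ring
  have r4 : (∑ j, C (fA w 4 j) * X j : MvPolynomial (Fin 5) K) = -C w * X 3 - C w ^ 2 * X 4 := by
    simp [Fin.sum_univ_five, fA]; ring
  rw [linSub, fLoop]
  simp only [map_add, map_mul, map_pow, aeval_X]
  rw [r0, r1, r2, r3, r4, Fin.sum_univ_five]
  have key : ∀ x y : MvPolynomial (Fin 5) K, (-x - y) ^ 2 * (-C w * x - C w ^ 2 * y) +
      (-C w * x - C w ^ 2 * y) ^ 2 * (-x - y) = x ^ 3 + y ^ 3 := by
    intro x y
    linear_combination ((-x ^ 3 - y ^ 3) + C w * (-2 * x ^ 2 * y - x * y ^ 2 + y ^ 3) +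
      C w ^ 2 * (-x * y ^ 2 - y ^ 3)) * hC
  linear_combination key (X 1) (X 2) + key (X 3) (X 4)

/-- in an algebraically closed field of characteristic different from three there is a root of
`w ^ 2 + w + 1` with `w ^ 2 ≠ w` -/
theorem exists_omega [IsAlgClosed K] (h3 : (3 : K) ≠ 0) :
    ∃ w δ : K, w ^ 2 + w + 1 = 0 ∧ (w ^ 2 - w) * δ = 1 := by
  obtain ⟨w, hw⟩ := IsAlgClosed.exists_root (Polynomial.X ^ 2 + Polynomial.X + 1 : Polynomial K)
    (by
      have : (Polynomial.X ^ 2 + Polynomial.X + 1 : Polynomial K).degree = 2 := by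
        compute_degree!
      rw [this]; norm_num)
  have hw' : w ^ 2 + w + 1 = 0 := by simpa [Polynomial.IsRoot] using hw
  have hne : w ^ 2 - w ≠ 0 := by
    intro h
    apply h3
    have h1 : w * (w - 1) = 0 := by linear_combination h
    rcases mul_eq_zero.1 h1 with h2 | h2
    · rw [h2] at hw'
      exfalso
      have : (1 : K) = 0 := by linear_combination hw'
      exact one_ne_zero this
    · have : w = 1 := by linear_combination h2
      rw [this] at hw'
      linear_combination hw'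
  exact ⟨w, (w ^ 2 - w)⁻¹, hw', mul_inv_cancel₀ hne⟩

theorem fermat_final (p : ℕ) (hp : p.Prime) (h : p % 3 = 2) (K : Type u) [Field K]
    [IsAlgClosed K] [CharP K p] :
    ∃ g : Fin 4 → FractionRing (MvPolynomial (Fin 3) K),
      RingHom.ker (MvPolynomial.aeval (R := K) g) =
        Ideal.span {MvPolynomial.aeval
          (Fin.cons (1 : MvPolynomial (Fin 4) K) MvPolynomial.X :
            Fin 5 → MvPolynomial (Fin 4) K) (∑ i : Fin 5, X i ^ 3 : MvPolynomial (Fin 5) K)} ∧
      Module.finrank (IntermediateField.adjoin K (Set.range g))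
        (FractionRing (MvPolynomial (Fin 3) K)) = p := by
  have hF : Fact p.Prime := ⟨hp⟩
  have h3 : (3 : K) ≠ 0 := by
    intro h3
    have h4 : p ∣ 3 := (CharP.cast_eq_zero_iff K p 3).1 (by exact_mod_cast h3)
    rcases (Nat.dvd_prime Nat.prime_three).1 h4 with h5 | h5
    · exact hp.one_lt.ne' h5
    · omega
  obtain ⟨w, δ, hw, hδ⟩ := exists_omega h3
  obtain ⟨γ, g1, ⟨c, g2⟩, g3, g4⟩ := fermat_main (K := K) p h
  have hA : IsUnit (fA w).det := Matrix.isUnit_det_of_right_inverse (fA_mul w δ hδ)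
  have := main_abs (fLoop K) fLoop_homogeneous fLoop_irreducible γ g1 c g2 0 g3 p hp.ne_zero g4
    (fA w) hA
  rw [linSub_fA w hw] at this
  exact this

end Pool.Agent.Work.CubicOdd
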