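import Pool.Agent.Work.MP_2f0ece_helper84.Klein

/-!
# The cubic threefold `x_0^3 + x_1^2 x_2 + x_2^2 x_3 + x_3^2 x_4 + x_4^2 x_1`
-/

set_option autoImplicit false

namespace Pool.Agent.Work.CubicOdd

open MvPolynomial

universe u

variable {K : Type u} [Field K]

/-- the cyclic cubic surface plus a cube -/
noncomputable def lf (K : Type u) [Field K] : MvPolynomial (Fin 5) K :=
  X 0 ^ 3 + X 1 ^ 2 * X 2 + X 2 ^ 2 * X 3 + X 3 ^ 2 * X 4 + X 4 ^ 2 * X 1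

theorem lf_aeval (γ : Fin 5 → L3 K) : aeval γ (lf K) =
    γ 0 ^ 3 + γ 1 ^ 2 * γ 2 + γ 2 ^ 2 * γ 3 + γ 3 ^ 2 * γ 4 + γ 4 ^ 2 * γ 1 := by
  simp only [lf, map_add, map_mul, map_pow, aeval_X]

theorem lf_homogeneous : (lf K).IsHomogeneous 3 := by
  have hX : ∀ i : Fin 5, (X i : MvPolynomial (Fin 5) K).IsHomogeneous 1 := fun i => isHomogeneous_X _ _
  have hXp : ∀ (i : Fin 5) (n : ℕ), (X i ^ n : MvPolynomial (Fin 5) K).IsHomogeneous n :=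
    fun i n => isHomogeneous_X_pow _ _
  exact ((((((hXp 0 3)).add ((hXp 1 2).mul (hX 2))).add ((hXp 2 2).mul (hX 3))).add
    ((hXp 3 2).mul (hX 4))).add ((hXp 4 2).mul (hX 1)))

theorem lf_wrap (γ : Fin 5 → L3 K) (hF : aeval γ (lf K) = 0)
    (hn : ∀ i, γ i ≠ 0) (p : ℕ)
    (hfin : Module.finrank (IntermediateField.adjoin K (Set.range fun i => γ i / γ 0)) (L3 K) = p) :
    ∃ γ : Fin 5 → L3 K, aeval γ (lf K) = 0 ∧
      (∃ c : L3 K, aeval (Fin.cons c (Fin.tail γ) : Fin 5 → L3 K) (lf K) ≠ 0) ∧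
      γ 0 ≠ 0 ∧
      Module.finrank (IntermediateField.adjoin K (Set.range fun i => γ i / γ 0)) (L3 K) = p := by
  refine ⟨γ, hF, ⟨0, ?_⟩, hn 0, hfin⟩
  rw [lf_aeval] at hF ⊢
  change (0 : L3 K) ^ 3 + γ 1 ^ 2 * γ 2 + γ 2 ^ 2 * γ 3 + γ 3 ^ 2 * γ 4 + γ 4 ^ 2 * γ 1 ≠ 0
  intro h
  have h1 : γ 0 ^ 3 = 0 := by linear_combination hF - h
  exact pow_ne_zero 3 (hn 0) h1

theorem lf_irreducible : Irreducible (lf K) := by
  rw [← MulEquiv.irreducible_iff (finSuccEquiv K 4)]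
  have e2 : finSuccEquiv K 4 (lf K) =
      Polynomial.X ^ 3 + Polynomial.C 0 * Polynomial.X +
        Polynomial.C (X 0 ^ 2 * X 1 + X 1 ^ 2 * X 2 + X 2 ^ 2 * X 3 + X 3 ^ 2 * X 0) := by
    have h0 : (finSuccEquiv K 4) (X 0) = Polynomial.X := finSuccEquiv_X_zero
    have h1 : (finSuccEquiv K 4) (X 1) = Polynomial.C (X 0) := finSuccEquiv_X_succ (j := 0)
    have h2 : (finSuccEquiv K 4) (X 2) = Polynomial.C (X 1) := finSuccEquiv_X_succ (j := 1)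
    have h3 : (finSuccEquiv K 4) (X 3) = Polynomial.C (X 2) := finSuccEquiv_X_succ (j := 2)
    have h4 : (finSuccEquiv K 4) (X 4) = Polynomial.C (X 3) := finSuccEquiv_X_succ (j := 3)
    rw [lf]
    simp only [map_add, map_mul, map_pow, h0, h1, h2, h3, h4, map_zero]
    ring
  rw [e2]
  apply irreducible_cubic
  intro r hr
  let ψ : MvPolynomial (Fin 4) K →ₐ[K] Polynomial K := aeval ![Polynomial.X, 1, 0, 0]
  have h := congrArg ψ hr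
  simp only [map_add, map_mul, map_pow, map_zero] at h
  have p0 : ψ (X 0) = Polynomial.X := by simp [ψ]
  have p1 : ψ (X 1) = 1 := by simp [ψ]
  have p2 : ψ (X 2) = 0 := by simp [ψ]
  have p3 : ψ (X 3) = 0 := by simp [ψ]
  rw [p0, p1, p2, p3] at h
  have h' : ψ r ^ 3 = - (Polynomial.X ^ 2) := by linear_combination h
  have h3 := congrArg Polynomial.natDegree h'
  rw [Polynomial.natDegree_pow, Polynomial.natDegree_neg, Polynomial.natDegree_X_pow] at h3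
  omega

/-- exponents, `p = 15 k + 2` -/
def l2ξ (k : ℤ) : Fin 5 → Fin 4 → ℤ :=
  ![![0, 0, 0, 0],
      ![-2, -1, -4 * k, -1 * k],
      ![4, 2, 1 + 8 * k, 2 * k],
      ![-1, -1, -1 * k, -4 * k],
      ![2, 2, 2 * k, 1 + 8 * k]]

def l2W (k : ℤ) : Fin 4 → Fin 5 → ℤ :=
  ![![0, -1 - 6 * k, -3 * k, 1 + 6 * k, 3 * k],
      ![0, 1 + 4 * k, 2 * k, -2 - 14 * k, -7 * k],
      ![0, 2, 1, 0, 0],
      ![0, 0, 0, 2, 1]]

def l2c (k : ℤ) : Fin 4 → ℤ := ![0, 0, 0, 0]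

theorem l2W_mul (k : ℤ) (b : Fin 4) : ∑ a, l2W k b a • (l2ξ k a - l2ξ k 0) =
      (![![1, 0, 0, 0], ![0, 1, 0, 0], ![0, 0, 1, 0], ![0, 0, 0, 1]] : Fin 4 → Fin 4 → ℤ) b := by
  funext c
  rw [Fin.sum_univ_five]
  fin_cases b <;> fin_cases c <;> simp [l2W, l2ξ] <;> ring

theorem l2_main (p : ℕ) [hp : Fact p.Prime] [CharP K p] (k : ℤ)
    (hk : (p : ℤ) = 15 * k + 2) :
    ∃ γ : Fin 5 → L3 K, aeval γ (lf K) = 0 ∧
      (∃ c : L3 K, aeval (Fin.cons c (Fin.tail γ) : Fin 5 → L3 K) (lf K) ≠ 0) ∧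
      γ 0 ≠ 0 ∧
      Module.finrank (IntermediateField.adjoin K (Set.range fun i => γ i / γ 0)) (L3 K) = p := by
  have hp0 : p ≠ 0 := hp.out.ne_zero
  have hd : (5 : ℕ) ≠ 0 := by norm_num
  have hf : (3 : ℕ) ≠ 0 := by norm_num
  have hF : aeval (fun i => (mon p 5 2 3 (l2ξ k i) : L3 K)) (lf K) = 0 := by
    rw [lf_aeval]
    have e0 : (mon p 5 2 3 (l2ξ k 0) : L3 K) ^ 3 =
        mon p 5 2 3 (l2c k) := by
      rw [mon_cube hd hf hp0]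
      congr 1; funext c; fin_cases c <;> simp [l2ξ, l2c, hk] <;> ring
    have e1 : (mon p 5 2 3 (l2ξ k 1) : L3 K) ^ 2 * mon p 5 2 3 (l2ξ k 2) =
        mon p 5 2 3 (l2c k + ![0, 0, 1, 0]) := by
      rw [mon_sq hd hf hp0]
      congr 1; funext c; fin_cases c <;> simp [l2ξ, l2c, hk] <;> ring
    have e2 : (mon p 5 2 3 (l2ξ k 2) : L3 K) ^ 2 * mon p 5 2 3 (l2ξ k 3) =
        mon p 5 2 3 (l2c k + ![(((5 : ℕ) : ℤ) + ((2 : ℕ) : ℤ)), ((3 : ℕ) : ℤ), (p : ℤ), 0]) := by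
      rw [mon_sq hd hf hp0]
      congr 1; funext c; fin_cases c <;> simp [l2ξ, l2c, hk] <;> ring
    have e3 : (mon p 5 2 3 (l2ξ k 3) : L3 K) ^ 2 * mon p 5 2 3 (l2ξ k 4) =
        mon p 5 2 3 (l2c k + ![0, 0, 0, 1]) := by
      rw [mon_sq hd hf hp0]
      congr 1; funext c; fin_cases c <;> simp [l2ξ, l2c, hk] <;> ring
    have e4 : (mon p 5 2 3 (l2ξ k 4) : L3 K) ^ 2 * mon p 5 2 3 (l2ξ k 1) =
        mon p 5 2 3 (l2c k + ![((2 : ℕ) : ℤ), ((3 : ℕ) : ℤ), 0, (p : ℤ)]) := by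
      rw [mon_sq hd hf hp0]
      congr 1; funext c; fin_cases c <;> simp [l2ξ, l2c, hk] <;> ring
    have h := mon_rel (K := K) (p := p) (d := 5) (e := 2) (f := 3) hd hf (l2c k)
    rw [e0, e1, e2, e3, e4]
    linear_combination h
  have hn : ∀ i, (mon p 5 2 3 (l2ξ k i) : L3 K) ≠ 0 := fun i => mon_ne_zero hd hf hp0 _
  have hfin := mon_finrank (K := K) (p := p) (e := 2) hd hf (l2ξ k) 0 (l2W k) (l2W_mul k)
  exact lf_wrap (fun i => mon p 5 2 3 (l2ξ k i)) hF hn p hfin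

/-- exponents, `p = 15 k + 8` -/
def l8ξ (k : ℤ) : Fin 5 → Fin 4 → ℤ :=
  ![![0, 0, 0, 0],
      ![4, 2, 4 + 8 * k, 1 + 2 * k],
      ![-1, -1, -1 * k, -2 - 4 * k],
      ![2, 2, 1 + 2 * k, 4 + 8 * k],
      ![-2, -1, -2 - 4 * k, -1 * k]]

def l8W (k : ℤ) : Fin 4 → Fin 5 → ℤ :=
  ![![0, 2 + 3 * k, -3 - 6 * k, -2 - 3 * k, 3 + 6 * k],
      ![0, -4 - 7 * k, 2 + 4 * k, 2 + 2 * k, -7 - 14 * k],
      ![0, 0, 2, 1, 0],
      ![0, 1, 0, 0, 2]]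

def l8c (k : ℤ) : Fin 4 → ℤ := ![0, 0, 0, 0]

theorem l8W_mul (k : ℤ) (b : Fin 4) : ∑ a, l8W k b a • (l8ξ k a - l8ξ k 0) =
      (![![1, 0, 0, 0], ![0, 1, 0, 0], ![0, 0, 1, 0], ![0, 0, 0, 1]] : Fin 4 → Fin 4 → ℤ) b := by
  funext c
  rw [Fin.sum_univ_five]
  fin_cases b <;> fin_cases c <;> simp [l8W, l8ξ] <;> ring

theorem l8_main (p : ℕ) [hp : Fact p.Prime] [CharP K p] (k : ℤ)
    (hk : (p : ℤ) = 15 * k + 8) :
    ∃ γ : Fin 5 → L3 K, aeval γ (lf K) = 0 ∧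
      (∃ c : L3 K, aeval (Fin.cons c (Fin.tail γ) : Fin 5 → L3 K) (lf K) ≠ 0) ∧
      γ 0 ≠ 0 ∧
      Module.finrank (IntermediateField.adjoin K (Set.range fun i => γ i / γ 0)) (L3 K) = p := by
  have hp0 : p ≠ 0 := hp.out.ne_zero
  have hd : (5 : ℕ) ≠ 0 := by norm_num
  have hf : (3 : ℕ) ≠ 0 := by norm_num
  have hF : aeval (fun i => (mon p 5 2 3 (l8ξ k i) : L3 K)) (lf K) = 0 := by
    rw [lf_aeval]
    have e0 : (mon p 5 2 3 (l8ξ k 0) : L3 K) ^ 3 =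
        mon p 5 2 3 (l8c k) := by
      rw [mon_cube hd hf hp0]
      congr 1; funext c; fin_cases c <;> simp [l8ξ, l8c, hk] <;> ring
    have e1 : (mon p 5 2 3 (l8ξ k 1) : L3 K) ^ 2 * mon p 5 2 3 (l8ξ k 2) =
        mon p 5 2 3 (l8c k + ![(((5 : ℕ) : ℤ) + ((2 : ℕ) : ℤ)), ((3 : ℕ) : ℤ), (p : ℤ), 0]) := by
      rw [mon_sq hd hf hp0]
      congr 1; funext c; fin_cases c <;> simp [l8ξ, l8c, hk] <;> ring
    have e2 : (mon p 5 2 3 (l8ξ k 2) : L3 K) ^ 2 * mon p 5 2 3 (l8ξ k 3) =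
        mon p 5 2 3 (l8c k + ![0, 0, 1, 0]) := by
      rw [mon_sq hd hf hp0]
      congr 1; funext c; fin_cases c <;> simp [l8ξ, l8c, hk] <;> ring
    have e3 : (mon p 5 2 3 (l8ξ k 3) : L3 K) ^ 2 * mon p 5 2 3 (l8ξ k 4) =
        mon p 5 2 3 (l8c k + ![((2 : ℕ) : ℤ), ((3 : ℕ) : ℤ), 0, (p : ℤ)]) := by
      rw [mon_sq hd hf hp0]
      congr 1; funext c; fin_cases c <;> simp [l8ξ, l8c, hk] <;> ring
    have e4 : (mon p 5 2 3 (l8ξ k 4) : L3 K) ^ 2 * mon p 5 2 3 (l8ξ k 1) =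
        mon p 5 2 3 (l8c k + ![0, 0, 0, 1]) := by
      rw [mon_sq hd hf hp0]
      congr 1; funext c; fin_cases c <;> simp [l8ξ, l8c, hk] <;> ring
    have h := mon_rel (K := K) (p := p) (d := 5) (e := 2) (f := 3) hd hf (l8c k)
    rw [e0, e1, e2, e3, e4]
    linear_combination h
  have hn : ∀ i, (mon p 5 2 3 (l8ξ k i) : L3 K) ≠ 0 := fun i => mon_ne_zero hd hf hp0 _
  have hfin := mon_finrank (K := K) (p := p) (e := 2) hd hf (l8ξ k) 0 (l8W k) (l8W_mul k)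
  exact lf_wrap (fun i => mon p 5 2 3 (l8ξ k i)) hF hn p hfin

/-- exponents, `p = 15 k + 11` -/
def l11ξ (k : ℤ) : Fin 5 → Fin 4 → ℤ :=
  ![![0, 0, 0, 0],
      ![4, 4, 6 + 8 * k, -3 - 4 * k],
      ![6, 7, -1 - 1 * k, 6 + 8 * k],
      ![1, 1, 2 + 2 * k, -1 - 1 * k],
      ![-2, -2, -3 - 4 * k, 2 + 2 * k]]

def l11W (k : ℤ) : Fin 4 → Fin 5 → ℤ :=
  ![![0, 13 + 15 * k, -1, -23 - 30 * k, 11 + 15 * k],
      ![0, -12 - 14 * k, 1, 20 + 26 * k, -11 - 15 * k],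
      ![0, 0, 0, 2, 1],
      ![0, 1, 0, 0, 2]]

def l11c (k : ℤ) : Fin 4 → ℤ := ![0, 0, 0, 0]

theorem l11W_mul (k : ℤ) (b : Fin 4) : ∑ a, l11W k b a • (l11ξ k a - l11ξ k 0) =
      (![![1, 0, 0, 0], ![0, 1, 0, 0], ![0, 0, 1, 0], ![0, 0, 0, 1]] : Fin 4 → Fin 4 → ℤ) b := by
  funext c
  rw [Fin.sum_univ_five]
  fin_cases b <;> fin_cases c <;> simp [l11W, l11ξ] <;> ring

theorem l11_main (p : ℕ) [hp : Fact p.Prime] [CharP K p] (k : ℤ)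
    (hk : (p : ℤ) = 15 * k + 11) :
    ∃ γ : Fin 5 → L3 K, aeval γ (lf K) = 0 ∧
      (∃ c : L3 K, aeval (Fin.cons c (Fin.tail γ) : Fin 5 → L3 K) (lf K) ≠ 0) ∧
      γ 0 ≠ 0 ∧
      Module.finrank (IntermediateField.adjoin K (Set.range fun i => γ i / γ 0)) (L3 K) = p := by
  have hp0 : p ≠ 0 := hp.out.ne_zero
  have hd : (1 : ℕ) ≠ 0 := by norm_num
  have hf : (15 : ℕ) ≠ 0 := by norm_num
  have hF : aeval (fun i => (mon p 1 13 15 (l11ξ k i) : L3 K)) (lf K) = 0 := by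
    rw [lf_aeval]
    have e0 : (mon p 1 13 15 (l11ξ k 0) : L3 K) ^ 3 =
        mon p 1 13 15 (l11c k) := by
      rw [mon_cube hd hf hp0]
      congr 1; funext c; fin_cases c <;> simp [l11ξ, l11c, hk] <;> ring
    have e1 : (mon p 1 13 15 (l11ξ k 1) : L3 K) ^ 2 * mon p 1 13 15 (l11ξ k 2) =
        mon p 1 13 15 (l11c k + ![(((1 : ℕ) : ℤ) + ((13 : ℕ) : ℤ)), ((15 : ℕ) : ℤ), (p : ℤ), 0]) := by
      rw [mon_sq hd hf hp0]
      congr 1; funext c; fin_cases c <;> simp [l11ξ, l11c, hk] <;> ring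
    have e2 : (mon p 1 13 15 (l11ξ k 2) : L3 K) ^ 2 * mon p 1 13 15 (l11ξ k 3) =
        mon p 1 13 15 (l11c k + ![((13 : ℕ) : ℤ), ((15 : ℕ) : ℤ), 0, (p : ℤ)]) := by
      rw [mon_sq hd hf hp0]
      congr 1; funext c; fin_cases c <;> simp [l11ξ, l11c, hk] <;> ring
    have e3 : (mon p 1 13 15 (l11ξ k 3) : L3 K) ^ 2 * mon p 1 13 15 (l11ξ k 4) =
        mon p 1 13 15 (l11c k + ![0, 0, 1, 0]) := by
      rw [mon_sq hd hf hp0]
      congr 1; funext c; fin_cases c <;> simp [l11ξ, l11c, hk] <;> ring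
    have e4 : (mon p 1 13 15 (l11ξ k 4) : L3 K) ^ 2 * mon p 1 13 15 (l11ξ k 1) =
        mon p 1 13 15 (l11c k + ![0, 0, 0, 1]) := by
      rw [mon_sq hd hf hp0]
      congr 1; funext c; fin_cases c <;> simp [l11ξ, l11c, hk] <;> ring
    have h := mon_rel (K := K) (p := p) (d := 1) (e := 13) (f := 15) hd hf (l11c k)
    rw [e0, e1, e2, e3, e4]
    linear_combination h
  have hn : ∀ i, (mon p 1 13 15 (l11ξ k i) : L3 K) ≠ 0 := fun i => mon_ne_zero hd hf hp0 _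
  have hfin := mon_finrank (K := K) (p := p) (e := 13) hd hf (l11ξ k) 0 (l11W k) (l11W_mul k)
  exact lf_wrap (fun i => mon p 1 13 15 (l11ξ k i)) hF hn p hfin

end Pool.Agent.Work.CubicOdd
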