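import Pool.Agent.Work.MP_2f0ece_helper84.CharThree2

/-!
# A smooth member of the family in characteristic three
-/

set_option autoImplicit false

namespace Pool.Agent.Work.CubicOdd

open MvPolynomial

universe u

variable {K : Type u} [Field K]

theorem fam_core (h3 : (3 : K) = 0) (z v y t : K)
    (h0 : z ^ 3 + y * t ^ 2 + v * y ^ 2 - v ^ 2 * y + v ^ 3 = 0)
    (d1 : z * v + y ^ 2 - y * v = 0) (d2 : y ^ 2 - 2 * v * y = 0)
    (d3 : t ^ 2 + 2 * v * y - v ^ 2 = 0) (d4 : y * t = 0) :
    z = 0 ∧ v = 0 ∧ y = 0 ∧ t = 0 := by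
  have key : y = 0 → z = 0 ∧ v = 0 ∧ y = 0 ∧ t = 0 := by
    intro hy
    subst hy
    have e1 : z * v = 0 := by linear_combination d1
    have e2 : v = 0 := by
      rcases mul_eq_zero.1 e1 with h | h
      · subst h
        exact pow_eq_zero_iff (n := 3) (by norm_num) |>.1 (by linear_combination h0)
      · exact h
    subst e2
    refine ⟨pow_eq_zero_iff (n := 3) (by norm_num) |>.1 (by linear_combination h0), rfl, rfl, ?_⟩
    exact pow_eq_zero_iff (n := 2) (by norm_num) |>.1 (by linear_combination d3)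
  have e : y * (y - 2 * v) = 0 := by linear_combination d2
  rcases mul_eq_zero.1 e with h | h
  · exact key h
  · have hy : y = 2 * v := by linear_combination h
    rcases mul_eq_zero.1 d4 with h' | h'
    · exact key h'
    · subst h'
      subst hy
      have e1 : v * (z + 2 * v) = 0 := by linear_combination d1
      rcases mul_eq_zero.1 e1 with hv | hv
      · apply key; rw [hv]; ring
      · have hz : z = - 2 * v := by linear_combination hv
        subst hz
        have : v ^ 3 = 0 := by linear_combination h0 + 2 * v ^ 3 * h3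
        have hv0 : v = 0 := pow_eq_zero_iff (n := 3) (by norm_num) |>.1 this
        apply key; rw [hv0]; ring

theorem fam_example [CharP K 3] (x : Fin 5 → K) (hx : x ≠ 0) :
    ¬ (eval x (fam (K := K) ![1, 1] ![0, 1, 0] 0 ![1, 0, 0, 1]) = 0 ∧
      ∀ i : Fin 5, eval x (pderiv i (fam (K := K) ![1, 1] ![0, 1, 0] 0 ![1, 0, 0, 1])) = 0) := by
  have h3 : (3 : K) = 0 := by exact_mod_cast CharP.cast_eq_zero K 3
  have h2 : (2 : K) ≠ 0 := by
    intro h
    have : (1 : K) = 0 := by linear_combination h3 - h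
    exact one_ne_zero this
  rintro ⟨h0, h⟩
  have d0 := h 0
  have d1 := h 1
  have d2 := h 2
  have d3 := h 3
  have d4 := h 4
  clear h
  obtain ⟨z, hz⟩ : ∃ z, z = x 0 := ⟨_, rfl⟩
  obtain ⟨u, hu⟩ : ∃ z, z = x 1 := ⟨_, rfl⟩
  obtain ⟨v, hv⟩ : ∃ z, z = x 2 := ⟨_, rfl⟩
  obtain ⟨y, hy⟩ : ∃ z, z = x 3 := ⟨_, rfl⟩
  obtain ⟨t, ht⟩ : ∃ z, z = x 4 := ⟨_, rfl⟩
  simp [fam, form1, form2, form3, pderiv_X, Derivation.leibniz, Derivation.leibniz_pow,
    ← hz, ← hu, ← hv, ← hy, ← ht] at h0 d0 d1 d2 d3 d4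
  have e4 : y * t = 0 := by
    rcases d4 with h | h | h
    · rw [h]; ring
    · exact absurd h h2
    · rw [h]; ring
  have e0 : u * v = 0 := by linear_combination d0 - z ^ 2 * h3
  have hall : z = 0 ∧ u = 0 ∧ v = 0 ∧ y = 0 ∧ t = 0 := by
    rcases mul_eq_zero.1 e0 with h | h
    · subst h
      obtain ⟨r1, r2, r3, r4⟩ := fam_core h3 z v y t (by linear_combination h0)
        (by linear_combination d1) (by linear_combination d2 - v ^ 2 * h3)
        (by linear_combination d3) e4
      exact ⟨r1, rfl, r2, r3, r4⟩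
    · subst h
      obtain ⟨r1, r2, r3, r4⟩ := fam_core h3 z u y t (by linear_combination h0)
        (by linear_combination d2) (by linear_combination d1 - u ^ 2 * h3)
        (by linear_combination d3) e4
      exact ⟨r1, r2, rfl, r3, r4⟩
  apply hx
  funext i
  fin_cases i
  · exact hz.symm.trans hall.1
  · exact hu.symm.trans hall.2.1
  · exact hv.symm.trans hall.2.2.1
  · exact hy.symm.trans hall.2.2.2.1
  · exact ht.symm.trans hall.2.2.2.2

end Pool.Agent.Work.CubicOdd
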