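import Pool.Agent.Work.MP_2f0ece_helper84.Fermat2
import Pool.Agent.Work.MP_2f0ece_helper84.Loop4
import Pool.Agent.Work.MP_2f0ece_helper84.Smooth3

/-!
# Final forms of the theorems, and smoothness
-/

set_option autoImplicit false

namespace Pool.Agent.Work.CubicOdd

open MvPolynomial

universe u

variable {K : Type u} [Field K]

theorem linSub_one (F : MvPolynomial (Fin 5) K) : linSub 1 F = F := by
  have : linSub (1 : Matrix (Fin 5) (Fin 5) K) = AlgHom.id K _ := by
    apply MvPolynomial.algHom_ext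
    intro i
    rw [linSub, aeval_X, AlgHom.id_apply, Finset.sum_eq_single i]
    · simp
    · intro j _ hj
      rw [Matrix.one_apply_ne hj.symm]; simp
    · simp
  rw [this]; rfl

theorem odd_of_prime {p : ℕ} (hp : p.Prime) (h2 : p ≠ 2) : Odd p := hp.odd_of_ne_two h2

theorem fermat_smooth (h3 : (3 : K) ≠ 0) (x : Fin 5 → K) (hx : x ≠ 0) :
    ¬ (eval x (∑ i : Fin 5, X i ^ 3 : MvPolynomial (Fin 5) K) = 0 ∧
      ∀ i : Fin 5, eval x (pderiv i (∑ i : Fin 5, X i ^ 3 : MvPolynomial (Fin 5) K)) = 0) := by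
  rintro ⟨-, h⟩
  apply hx
  funext i
  have := h i
  rw [map_sum, map_sum, Finset.sum_eq_single i] at this
  · simp [Derivation.leibniz_pow, h3] at this
    exact this
  · intro j _ hj
    simp [Derivation.leibniz_pow, pderiv_X_of_ne hj]
  · simp

theorem prime_cast_ne {p q : ℕ} (hp : p.Prime) (hq : q.Prime) (h : p ≠ q) [CharP K p] :
    (q : K) ≠ 0 := by
  intro h3
  have h4 : p ∣ q := (CharP.cast_eq_zero_iff K p q).1 h3
  rcases (Nat.dvd_prime hq).1 h4 with h5 | h5
  · exact hp.one_lt.ne' h5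
  · exact h h5

theorem klein_smooth (h33 : (33 : K) ≠ 0) (x : Fin 5 → K) (hx : x ≠ 0) :
    ¬ (eval x (kl K) = 0 ∧ ∀ i : Fin 5, eval x (pderiv i (kl K)) = 0) := by
  rintro ⟨-, h⟩
  have d0 := h 0
  have d1 := h 1
  have d2 := h 2
  have d3 := h 3
  have d4 := h 4
  clear h
  obtain ⟨a, ha⟩ : ∃ z, z = x 0 := ⟨_, rfl⟩
  obtain ⟨b, hb⟩ : ∃ z, z = x 1 := ⟨_, rfl⟩
  obtain ⟨c, hc⟩ : ∃ z, z = x 2 := ⟨_, rfl⟩
  obtain ⟨d, hd⟩ : ∃ z, z = x 3 := ⟨_, rfl⟩
  obtain ⟨e, he⟩ : ∃ z, z = x 4 := ⟨_, rfl⟩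
  simp only [kl, map_add, Derivation.leibniz, Derivation.leibniz_pow, pderiv_X, map_mul, map_pow,
    smul_eq_mul, eval_X, map_nsmul, nsmul_eq_mul, Pi.single_apply, ← ha, ← hb, ← hc, ← hd, ← he]
    at d0 d1 d2 d3 d4
  norm_num [Fin.ext_iff] at d0 d1 d2 d3 d4
  have sq : ∀ y : K, y ^ 2 = 0 → y = 0 := fun y hy => pow_eq_zero_iff (n := 2) (by norm_num) |>.1 hy
  have ha0 : a = 0 := by
    have e1 : 33 * (a ^ 2 * b) = 0 := by
      linear_combination 16 * a * d0 - 8 * e * d4 + 4 * d * d3 - 2 * c * d2 + b * d1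
    rcases mul_eq_zero.1 e1 with e2 | e2
    · exact absurd e2 h33
    · rcases mul_eq_zero.1 e2 with e3 | e3
      · exact sq a e3
      · rw [e3] at d1
        exact sq a (by linear_combination d1)
  subst ha0
  have he0 : e = 0 := sq e (by linear_combination d0)
  subst he0
  have hd0 : d = 0 := sq d (by linear_combination d4)
  subst hd0
  have hc0 : c = 0 := sq c (by linear_combination d3)
  subst hc0
  have hb0 : b = 0 := sq b (by linear_combination d2)
  subst hb0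
  apply hx
  funext i
  fin_cases i
  · exact ha.symm
  · exact hb.symm
  · exact hc.symm
  · exact hd.symm
  · exact he.symm

theorem lf_smooth (h3 : (3 : K) ≠ 0) (h5 : (5 : K) ≠ 0) (x : Fin 5 → K) (hx : x ≠ 0) :
    ¬ (eval x (lf K) = 0 ∧ ∀ i : Fin 5, eval x (pderiv i (lf K)) = 0) := by
  rintro ⟨-, h⟩
  have d0 := h 0
  have d1 := h 1
  have d2 := h 2
  have d3 := h 3
  have d4 := h 4
  clear h
  obtain ⟨a, ha⟩ : ∃ z, z = x 0 := ⟨_, rfl⟩
  obtain ⟨b, hb⟩ : ∃ z, z = x 1 := ⟨_, rfl⟩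
  obtain ⟨c, hc⟩ : ∃ z, z = x 2 := ⟨_, rfl⟩
  obtain ⟨d, hd⟩ : ∃ z, z = x 3 := ⟨_, rfl⟩
  obtain ⟨e, he⟩ : ∃ z, z = x 4 := ⟨_, rfl⟩
  simp only [lf, map_add, Derivation.leibniz, Derivation.leibniz_pow, pderiv_X, map_mul, map_pow,
    smul_eq_mul, eval_X, map_nsmul, nsmul_eq_mul, Pi.single_apply, ← ha, ← hb, ← hc, ← hd, ← he]
    at d0 d1 d2 d3 d4
  norm_num [Fin.ext_iff] at d0 d1 d2 d3 d4
  have sq : ∀ y : K, y ^ 2 = 0 → y = 0 := fun y hy => pow_eq_zero_iff (n := 2) (by norm_num) |>.1 hy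
  have hb0 : b = 0 := by
    have h15 : (15 : K) ≠ 0 := by
      have : (15 : K) = 3 * 5 := by norm_num
      rw [this]; exact mul_ne_zero h3 h5
    have e1 : 15 * (b ^ 2 * c) = 0 := by
      linear_combination 8 * b * d1 - 4 * e * d4 + 2 * d * d3 - c * d2
    rcases mul_eq_zero.1 e1 with e2 | e2
    · exact absurd e2 h15
    · rcases mul_eq_zero.1 e2 with e3 | e3
      · exact sq b e3
      · rw [e3] at d2
        exact sq b (by linear_combination d2)
  subst hb0
  have he0 : e = 0 := sq e (by linear_combination d1)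
  subst he0
  have hd0 : d = 0 := sq d (by linear_combination d4)
  subst hd0
  have hc0 : c = 0 := sq c (by linear_combination d3)
  subst hc0
  have ha0 : a = 0 := by
    rcases d0 with h | h
    · exact absurd h h3
    · exact h
  apply hx
  funext i
  fin_cases i
  · exact ha.symm.trans ha0
  · exact hb.symm
  · exact hc.symm
  · exact hd.symm
  · exact he.symm

theorem klein_final (p : ℕ) (hp : p.Prime) (h2 : p ≠ 2)
    (h : p % 11 = 2 ∨ p % 11 = 6 ∨ p % 11 = 7 ∨ p % 11 = 8) (K : Type u) [Field K] [CharP K p] :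
    ∃ g : Fin 4 → FractionRing (MvPolynomial (Fin 3) K),
      RingHom.ker (MvPolynomial.aeval (R := K) g) =
        Ideal.span {MvPolynomial.aeval
          (Fin.cons (1 : MvPolynomial (Fin 4) K) MvPolynomial.X :
            Fin 5 → MvPolynomial (Fin 4) K) (kl K)} ∧
      Module.finrank (IntermediateField.adjoin K (Set.range g))
        (FractionRing (MvPolynomial (Fin 3) K)) = p := by
  have hF : Fact p.Prime := ⟨hp⟩
  have h2' : (2 : K) ≠ 0 := by exact_mod_cast prime_cast_ne (K := K) hp Nat.prime_two h2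
  obtain ⟨k, hk⟩ : ∃ k : ℤ, (p : ℤ) = 11 * k + ((p % 11 : ℕ) : ℤ) := ⟨p / 11, by omega⟩
  have key : ∃ γ : Fin 5 → L3 K, aeval γ (kl K) = 0 ∧
      (∃ c : L3 K, aeval (Fin.cons c (Fin.tail γ) : Fin 5 → L3 K) (kl K) ≠ 0) ∧
      γ 0 ≠ 0 ∧
      Module.finrank (IntermediateField.adjoin K (Set.range fun i => γ i / γ 0)) (L3 K) = p := by
    rcases h with h | h | h | h
    · exact k2_main p h2' k (by rw [hk, h]; rfl)
    · exact k6_main p h2' k (by rw [hk, h]; rfl)
    · exact k7_main p h2' k (by rw [hk, h]; rfl)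
    · exact k8_main p h2' k (by rw [hk, h]; rfl)
  obtain ⟨γ, g1, ⟨c, g2⟩, g3, g4⟩ := key
  have := main_abs (kl K) kl_homogeneous kl_irreducible γ g1 c g2 0 g3 p hp.ne_zero g4
    1 (by rw [Matrix.det_one]; exact isUnit_one)
  rwa [linSub_one] at this

theorem loop4_final (p : ℕ) (hp : p.Prime)
    (h : p % 15 = 2 ∨ p % 15 = 8 ∨ p % 15 = 11) (K : Type u) [Field K] [CharP K p] :
    ∃ g : Fin 4 → FractionRing (MvPolynomial (Fin 3) K),
      RingHom.ker (MvPolynomial.aeval (R := K) g) =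
        Ideal.span {MvPolynomial.aeval
          (Fin.cons (1 : MvPolynomial (Fin 4) K) MvPolynomial.X :
            Fin 5 → MvPolynomial (Fin 4) K) (lf K)} ∧
      Module.finrank (IntermediateField.adjoin K (Set.range g))
        (FractionRing (MvPolynomial (Fin 3) K)) = p := by
  have hF : Fact p.Prime := ⟨hp⟩
  obtain ⟨k, hk⟩ : ∃ k : ℤ, (p : ℤ) = 15 * k + ((p % 15 : ℕ) : ℤ) := ⟨p / 15, by omega⟩
  have key : ∃ γ : Fin 5 → L3 K, aeval γ (lf K) = 0 ∧
      (∃ c : L3 K, aeval (Fin.cons c (Fin.tail γ) : Fin 5 → L3 K) (lf K) ≠ 0) ∧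
      γ 0 ≠ 0 ∧
      Module.finrank (IntermediateField.adjoin K (Set.range fun i => γ i / γ 0)) (L3 K) = p := by
    rcases h with h | h | h
    · exact l2_main p k (by rw [hk, h]; rfl)
    · exact l8_main p k (by rw [hk, h]; rfl)
    · exact l11_main p k (by rw [hk, h]; rfl)
  obtain ⟨γ, g1, ⟨c, g2⟩, g3, g4⟩ := key
  have := main_abs (lf K) lf_homogeneous lf_irreducible γ g1 c g2 0 g3 p hp.ne_zero g4
    1 (by rw [Matrix.det_one]; exact isUnit_one)
  rwa [linSub_one] at this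

/-- the family in characteristic three, in all coordinate systems -/
theorem three_final (K : Type u) [Field K] [CharP K 3] (a : Fin 2 → K) (ha : a ≠ 0)
    (q l : Fin 3 → K) (k : Fin 4 → K) (A : Matrix (Fin 5) (Fin 5) K) (hA : IsUnit A.det) :
    ∃ g : Fin 4 → FractionRing (MvPolynomial (Fin 3) K),
      RingHom.ker (MvPolynomial.aeval (R := K) g) =
        Ideal.span {MvPolynomial.aeval
          (Fin.cons (1 : MvPolynomial (Fin 4) K) MvPolynomial.X :
            Fin 5 → MvPolynomial (Fin 4) K) (linSub A (fam a q l k))} ∧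
      Module.finrank (IntermediateField.adjoin K (Set.range g))
        (FractionRing (MvPolynomial (Fin 3) K)) = 3 := by
  obtain ⟨γ, g1, ⟨c, g2⟩, g3, g4⟩ := param_exists a ha q l k
  exact main_abs (fam a q l k) (fam_homogeneous a q l k) (fam_irreducible a q l k) γ g1 c g2 2
    (by rw [g3]; exact one_ne_zero) 3 (by norm_num) g4 A hA

end Pool.Agent.Work.CubicOdd
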