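import Pool.Agent.Work.MP_2f0ece_helper84.Basic

/-!
# Kernels of parametrizations
-/

set_option autoImplicit false

namespace Pool.Agent.Work.CubicOdd

open MvPolynomial

variable {K : Type*} [Field K]

/-- `aeval` of `Fin.cons x y` through `finSuccEquiv` -/
theorem aeval_cons {E : Type*} [CommRing E] [Algebra K E] {n : ℕ} (x : E) (y : Fin n → E)
    (H : MvPolynomial (Fin (n + 1)) K) :
    aeval (Fin.cons x y : Fin (n + 1) → E) H =
      Polynomial.eval₂ (aeval y : MvPolynomial (Fin n) K →ₐ[K] E).toRingHom x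
        (finSuccEquiv K n H) := by
  let f : MvPolynomial (Fin (n + 1)) K →ₐ[K] E :=
    { (Polynomial.eval₂RingHom (aeval y : MvPolynomial (Fin n) K →ₐ[K] E).toRingHom x).comp
        (finSuccEquiv K n : MvPolynomial (Fin (n + 1)) K →+* _) with
      commutes' := fun r => by
        change Polynomial.eval₂ (aeval y : MvPolynomial (Fin n) K →ₐ[K] E).toRingHom x
          (finSuccEquiv K n (algebraMap K _ r)) = _
        rw [AlgEquiv.commutes, Polynomial.algebraMap_apply, Polynomial.eval₂_C]
        exact (aeval y : MvPolynomial (Fin n) K →ₐ[K] E).commutes r }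
  have hf : (aeval (Fin.cons x y : Fin (n + 1) → E) : MvPolynomial (Fin (n + 1)) K →ₐ[K] E) = f := by
    apply MvPolynomial.algHom_ext
    intro i
    refine Fin.cases ?_ (fun j => ?_) i
    · rw [aeval_X, Fin.cons_zero]
      change x = Polynomial.eval₂ _ x (finSuccEquiv K n (X 0))
      rw [finSuccEquiv_X_zero, Polynomial.eval₂_X]
    · rw [aeval_X, Fin.cons_succ]
      change y j = Polynomial.eval₂ _ x (finSuccEquiv K n (X j.succ))
      rw [finSuccEquiv_X_succ, Polynomial.eval₂_C]
      simp
  rw [hf]; rfl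

theorem poly_dvd {A E : Type*} [CommRing A] [IsDomain A] [UniqueFactorizationMonoid A] [Field E]
    (φ : A →+* E) (hφi : Function.Injective φ) (x : E) (P Q : Polynomial A) (hPi : Irreducible P)
    (h0 : Polynomial.eval₂ φ x P = 0) (hH : Polynomial.eval₂ φ x Q = 0) : P ∣ Q := by
  have hdeg : P.natDegree ≠ 0 := by
    intro h
    obtain ⟨c, hc⟩ := Polynomial.natDegree_eq_zero.1 h
    rw [← hc, Polynomial.eval₂_C] at h0
    have : c = 0 := (injective_iff_map_eq_zero φ).1 hφi c h0
    apply hPi.ne_zero
    rw [← hc, this, map_zero]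
  have hprim : P.IsPrimitive := hPi.isPrimitive hdeg
  have hPf : Irreducible (P.map (algebraMap A (FractionRing A))) :=
    hprim.irreducible_iff_irreducible_map_fraction_map.1 hPi
  let ψ : FractionRing A →+* E := IsFractionRing.lift hφi
  have hψ : ψ.comp (algebraMap A (FractionRing A)) = φ :=
    RingHom.ext fun a => IsFractionRing.lift_algebraMap hφi a
  have e1 : (P.map (algebraMap A (FractionRing A))).eval₂ ψ x = 0 := by
    rw [Polynomial.eval₂_map, hψ]; exact h0
  have e2 : (Q.map (algebraMap A (FractionRing A))).eval₂ ψ x = 0 := by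
    rw [Polynomial.eval₂_map, hψ]; exact hH
  have hdvd : P.map (algebraMap A (FractionRing A)) ∣ Q.map (algebraMap A (FractionRing A)) := by
    by_contra hnd
    obtain ⟨a, b, hab⟩ := (hPf.coprime_iff_not_dvd.2 hnd : IsCoprime _ _)
    have := congrArg (Polynomial.eval₂ ψ x) hab
    rw [Polynomial.eval₂_add, Polynomial.eval₂_mul, Polynomial.eval₂_mul, e1, e2,
      Polynomial.eval₂_one] at this
    simp at this
  exact hprim.dvd_of_fraction_map_dvd_fraction_map hdvd

/-- If `y` is algebraically independent and `(x, y)` is a zero of the irreducible polynomial `F`,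
then every polynomial vanishing at `(x, y)` is a multiple of `F`. -/
theorem dvd_of_aeval_eq_zero {E : Type*} [Field E] [Algebra K E] {n : ℕ} (x : E) (y : Fin n → E)
    (hy : AlgebraicIndependent K y) (F : MvPolynomial (Fin (n + 1)) K) (hF : Irreducible F)
    (h0 : aeval (Fin.cons x y : Fin (n + 1) → E) F = 0) (H : MvPolynomial (Fin (n + 1)) K)
    (hH : aeval (Fin.cons x y : Fin (n + 1) → E) H = 0) : F ∣ H := by
  have hφi : Function.Injective (aeval y : MvPolynomial (Fin n) K →ₐ[K] E).toRingHom := hy
  have hPi : Irreducible (finSuccEquiv K n F) :=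
    (MulEquiv.irreducible_iff (finSuccEquiv K n)).2 hF
  rw [aeval_cons] at h0 hH
  exact (map_dvd_iff (finSuccEquiv K n)).1 (poly_dvd _ hφi x _ _ hPi h0 hH)

end Pool.Agent.Work.CubicOdd
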