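import Pool.Agent.Work.MP_2f0ece_helper84.Fermat

/-!
# The Klein cubic threefold
-/

set_option autoImplicit false

namespace Pool.Agent.Work.CubicOdd

open MvPolynomial

universe u

variable {K : Type u} [Field K]

/-- the Klein cubic -/
noncomputable def kl (K : Type u) [Field K] : MvPolynomial (Fin 5) K :=
  X 0 ^ 2 * X 1 + X 1 ^ 2 * X 2 + X 2 ^ 2 * X 3 + X 3 ^ 2 * X 4 + X 4 ^ 2 * X 0

theorem kl_aeval (γ : Fin 5 → L3 K) : aeval γ (kl K) =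
    γ 0 ^ 2 * γ 1 + γ 1 ^ 2 * γ 2 + γ 2 ^ 2 * γ 3 + γ 3 ^ 2 * γ 4 + γ 4 ^ 2 * γ 0 := by
  simp only [kl, map_add, map_mul, map_pow, aeval_X]

theorem kl_homogeneous : (kl K).IsHomogeneous 3 := by
  have hX : ∀ i : Fin 5, (X i : MvPolynomial (Fin 5) K).IsHomogeneous 1 := fun i => isHomogeneous_X _ _
  have hXp : ∀ (i : Fin 5) (n : ℕ), (X i ^ n : MvPolynomial (Fin 5) K).IsHomogeneous n :=
    fun i n => isHomogeneous_X_pow _ _
  exact ((((((hXp 0 2).mul (hX 1)).add ((hXp 1 2).mul (hX 2))).add ((hXp 2 2).mul (hX 3))).add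
    ((hXp 3 2).mul (hX 4))).add ((hXp 4 2).mul (hX 0)))

theorem kl_ne (h2 : (2 : K) ≠ 0) (γ : Fin 5 → L3 K) (hF : aeval γ (kl K) = 0) (g0 : γ 0 ≠ 0)
    (g4 : γ 4 ≠ 0) : aeval (Fin.cons (-(γ 0)) (Fin.tail γ) : Fin 5 → L3 K) (kl K) ≠ 0 := by
  rw [kl_aeval] at hF ⊢
  change (-(γ 0)) ^ 2 * γ 1 + γ 1 ^ 2 * γ 2 + γ 2 ^ 2 * γ 3 + γ 3 ^ 2 * γ 4 +
    γ 4 ^ 2 * (-(γ 0)) ≠ 0
  intro h
  have h1 : 2 * (γ 4 ^ 2 * γ 0) = 0 := by linear_combination hF - h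
  have h2' : (2 : L3 K) ≠ 0 := by
    have h3 : algebraMap K (L3 K) 2 ≠ 0 := (map_ne_zero _).2 h2
    have h4 : algebraMap K (L3 K) 2 = 2 := map_ofNat _ 2
    rwa [h4] at h3
  exact mul_ne_zero h2' (mul_ne_zero (pow_ne_zero 2 g4) g0) h1

theorem kl_wrap (h2 : (2 : K) ≠ 0) (γ : Fin 5 → L3 K) (hF : aeval γ (kl K) = 0)
    (hn : ∀ i, γ i ≠ 0) (p : ℕ)
    (hfin : Module.finrank (IntermediateField.adjoin K (Set.range fun i => γ i / γ 0)) (L3 K) = p) :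
    ∃ γ : Fin 5 → L3 K, aeval γ (kl K) = 0 ∧
      (∃ c : L3 K, aeval (Fin.cons c (Fin.tail γ) : Fin 5 → L3 K) (kl K) ≠ 0) ∧
      γ 0 ≠ 0 ∧
      Module.finrank (IntermediateField.adjoin K (Set.range fun i => γ i / γ 0)) (L3 K) = p :=
  ⟨γ, hF, ⟨_, kl_ne h2 γ hF (hn 0) (hn 4)⟩, hn 0, hfin⟩

/-- a monic cubic without roots is irreducible -/
theorem irreducible_cubic' {A : Type*} [CommRing A] [IsDomain A] (a q g : A)
    (h : ∀ r : A, r ^ 3 + a * r ^ 2 + q * r + g ≠ 0) :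
    Irreducible (Polynomial.X ^ 3 + Polynomial.C a * Polynomial.X ^ 2 +
      Polynomial.C q * Polynomial.X + Polynomial.C g) := by
  have hdeg : (Polynomial.X ^ 3 + Polynomial.C a * Polynomial.X ^ 2 +
      Polynomial.C q * Polynomial.X + Polynomial.C g).natDegree = 3 := by
    compute_degree!
  have hm : (Polynomial.X ^ 3 + Polynomial.C a * Polynomial.X ^ 2 +
      Polynomial.C q * Polynomial.X + Polynomial.C g).Monic := by
    monicity!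
  rw [hm.irreducible_iff_roots_eq_zero_of_degree_le_three (by omega) (by omega)]
  rw [Multiset.eq_zero_iff_forall_notMem]
  intro r hr
  have := Polynomial.isRoot_of_mem_roots hr
  apply h r
  simpa [Polynomial.IsRoot] using this

theorem irreducible_of_linSub (A B : Matrix (Fin 5) (Fin 5) K) (hAB : A * B = 1)
    (F : MvPolynomial (Fin 5) K) (h : Irreducible (linSub A F)) : Irreducible F := by
  have hu : ∀ R : MvPolynomial (Fin 5) K, IsUnit (linSub A R) → IsUnit R := by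
    intro R hR
    have := hR.map (linSub B)
    rwa [linSub_linSub B A hAB] at this
  refine ⟨fun hF => h.not_isUnit (hF.map (linSub A)), fun R S hRS => ?_⟩
  have := h.isUnit_or_isUnit (a := linSub A R) (b := linSub A S) (by rw [hRS, map_mul])
  exact this.imp (hu R) (hu S)

def klA (K : Type u) [Field K] (s : K) : Matrix (Fin 5) (Fin 5) K :=
  !![1, 0, 0, 0, 0; s, 1, 0, 0, 0; 0, 0, 1, 0, 0; 0, 0, 0, 1, 0; 0, 0, 0, 0, 1]

theorem klA_mul (s t : K) (h : s + t = 0) : klA K s * klA K t = 1 := by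
  ext i j
  rw [Matrix.mul_apply, Fin.sum_univ_five, Matrix.one_apply]
  fin_cases i <;> fin_cases j <;> simp [klA] <;> exact h

theorem kl_linSub : linSub (klA K 1) (kl K) =
    X 0 ^ 2 * (X 1 + X 0) + (X 1 + X 0) ^ 2 * X 2 + X 2 ^ 2 * X 3 + X 3 ^ 2 * X 4 +
      X 4 ^ 2 * X 0 := by
  have r0 : (∑ j, C (klA K 1 0 j) * X j : MvPolynomial (Fin 5) K) = X 0 := by
    simp [Fin.sum_univ_five, klA]
  have r1 : (∑ j, C (klA K 1 1 j) * X j : MvPolynomial (Fin 5) K) = X 1 + X 0 := by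
    simp [Fin.sum_univ_five, klA]; ring
  have r2 : (∑ j, C (klA K 1 2 j) * X j : MvPolynomial (Fin 5) K) = X 2 := by
    simp [Fin.sum_univ_five, klA]
  have r3 : (∑ j, C (klA K 1 3 j) * X j : MvPolynomial (Fin 5) K) = X 3 := by
    simp [Fin.sum_univ_five, klA]
  have r4 : (∑ j, C (klA K 1 4 j) * X j : MvPolynomial (Fin 5) K) = X 4 := by
    simp [Fin.sum_univ_five, klA]
  rw [linSub, kl]
  simp only [map_add, map_mul, map_pow, aeval_X]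
  rw [r0, r1, r2, r3, r4]

theorem kl_irreducible : Irreducible (kl K) := by
  apply irreducible_of_linSub (klA K 1) (klA K (-1)) (klA_mul _ _ (by ring))
  rw [kl_linSub, ← MulEquiv.irreducible_iff (finSuccEquiv K 4)]
  have e2 : finSuccEquiv K 4 (X 0 ^ 2 * (X 1 + X 0) + (X 1 + X 0) ^ 2 * X 2 + X 2 ^ 2 * X 3 +
      X 3 ^ 2 * X 4 + X 4 ^ 2 * X 0) =
      Polynomial.X ^ 3 + Polynomial.C (X 0 + X 1) * Polynomial.X ^ 2 +
        Polynomial.C (2 * X 0 * X 1 + X 3 ^ 2) * Polynomial.X +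
        Polynomial.C (X 0 ^ 2 * X 1 + X 1 ^ 2 * X 2 + X 2 ^ 2 * X 3) := by
    have h0 : (finSuccEquiv K 4) (X 0) = Polynomial.X := finSuccEquiv_X_zero
    have h1 : (finSuccEquiv K 4) (X 1) = Polynomial.C (X 0) := finSuccEquiv_X_succ (j := 0)
    have h2 : (finSuccEquiv K 4) (X 2) = Polynomial.C (X 1) := finSuccEquiv_X_succ (j := 1)
    have h3 : (finSuccEquiv K 4) (X 3) = Polynomial.C (X 2) := finSuccEquiv_X_succ (j := 2)
    have h4 : (finSuccEquiv K 4) (X 4) = Polynomial.C (X 3) := finSuccEquiv_X_succ (j := 3)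
    simp only [map_add, map_mul, map_pow, h0, h1, h2, h3, h4, map_ofNat]
    ring
  rw [e2]
  apply irreducible_cubic'
  intro r hr
  let ψ : MvPolynomial (Fin 4) K →ₐ[K] Polynomial K := aeval ![0, 0, 1, Polynomial.X]
  have h := congrArg ψ hr
  simp only [map_add, map_mul, map_pow, map_zero, map_ofNat] at h
  have p0 : ψ (X 0) = 0 := by simp [ψ]
  have p1 : ψ (X 1) = 0 := by simp [ψ]
  have p2 : ψ (X 2) = 1 := by simp [ψ]
  have p3 : ψ (X 3) = Polynomial.X := by simp [ψ]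
  rw [p0, p1, p2, p3] at h
  have h' : ψ r ^ 3 + Polynomial.X ^ 2 * ψ r + Polynomial.X = 0 := by linear_combination h
  have h1 := congrArg (Polynomial.eval 0) h'
  simp at h1
  obtain ⟨η, hη⟩ : Polynomial.X ∣ ψ r := by
    rw [Polynomial.X_dvd_iff, Polynomial.coeff_zero_eq_eval_zero]
    exact h1
  rw [hη] at h'
  have h2 : Polynomial.X * (Polynomial.X ^ 2 * (η ^ 3 + η) + 1) = 0 := by linear_combination h'
  rcases mul_eq_zero.1 h2 with h3 | h3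
  · exact Polynomial.X_ne_zero h3
  · have h4 := congrArg (Polynomial.eval 0) h3
    simp at h4

/-- exponents, `p = 11 k + 2` -/
def k2ξ (k : ℤ) : Fin 5 → Fin 4 → ℤ :=
  ![![-3, -3, -3 * k, -1 * k],
      ![5, 7, 1 + 5 * k, 1 * k],
      ![-2, -2, 0, -3 * k],
      ![3, 5, -1 * k, 1 + 5 * k],
      ![1, 2, 1 * k, 0]]

def k2W (k : ℤ) : Fin 4 → Fin 5 → ℤ :=
  ![![0, -11 * k, 5 + 22 * k, 11 * k, -1],
      ![0, 8 * k, -4 - 18 * k, -9 * k, 1 + 2 * k],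
      ![0, 1, 0, 0, -2],
      ![0, 0, 2, 1, -2]]

def k2c (k : ℤ) : Fin 4 → ℤ := ![-1, 1, -1 * k, -1 * k]

theorem k2W_mul (k : ℤ) (b : Fin 4) : ∑ a, k2W k b a • (k2ξ k a - k2ξ k 0) =
      (![![1, 0, 0, 0], ![0, 1, 0, 0], ![0, 0, 1, 0], ![0, 0, 0, 1]] : Fin 4 → Fin 4 → ℤ) b := by
  funext c
  rw [Fin.sum_univ_five]
  fin_cases b <;> fin_cases c <;> simp [k2W, k2ξ] <;> ring

theorem k2_main (p : ℕ) [hp : Fact p.Prime] [CharP K p] (h2 : (2 : K) ≠ 0) (k : ℤ)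
    (hk : (p : ℤ) = 11 * k + 2) :
    ∃ γ : Fin 5 → L3 K, aeval γ (kl K) = 0 ∧
      (∃ c : L3 K, aeval (Fin.cons c (Fin.tail γ) : Fin 5 → L3 K) (kl K) ≠ 0) ∧
      γ 0 ≠ 0 ∧
      Module.finrank (IntermediateField.adjoin K (Set.range fun i => γ i / γ 0)) (L3 K) = p := by
  have hp0 : p ≠ 0 := hp.out.ne_zero
  have hd : (1 : ℕ) ≠ 0 := by norm_num
  have hf : (11 : ℕ) ≠ 0 := by norm_num
  have hF : aeval (fun i => (mon p 1 8 11 (k2ξ k i) : L3 K)) (kl K) = 0 := by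
    rw [kl_aeval]
    have e0 : (mon p 1 8 11 (k2ξ k 0) : L3 K) ^ 2 * mon p 1 8 11 (k2ξ k 1) =
        mon p 1 8 11 (k2c k + ![0, 0, 1, 0]) := by
      rw [mon_sq hd hf hp0]
      congr 1; funext c; fin_cases c <;> simp [k2ξ, k2c, hk] <;> ring
    have e1 : (mon p 1 8 11 (k2ξ k 1) : L3 K) ^ 2 * mon p 1 8 11 (k2ξ k 2) =
        mon p 1 8 11 (k2c k + ![(((1 : ℕ) : ℤ) + ((8 : ℕ) : ℤ)), ((11 : ℕ) : ℤ), (p : ℤ), 0]) := by
      rw [mon_sq hd hf hp0]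
      congr 1; funext c; fin_cases c <;> simp [k2ξ, k2c, hk] <;> ring
    have e2 : (mon p 1 8 11 (k2ξ k 2) : L3 K) ^ 2 * mon p 1 8 11 (k2ξ k 3) =
        mon p 1 8 11 (k2c k + ![0, 0, 0, 1]) := by
      rw [mon_sq hd hf hp0]
      congr 1; funext c; fin_cases c <;> simp [k2ξ, k2c, hk] <;> ring
    have e3 : (mon p 1 8 11 (k2ξ k 3) : L3 K) ^ 2 * mon p 1 8 11 (k2ξ k 4) =
        mon p 1 8 11 (k2c k + ![((8 : ℕ) : ℤ), ((11 : ℕ) : ℤ), 0, (p : ℤ)]) := by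
      rw [mon_sq hd hf hp0]
      congr 1; funext c; fin_cases c <;> simp [k2ξ, k2c, hk] <;> ring
    have e4 : (mon p 1 8 11 (k2ξ k 4) : L3 K) ^ 2 * mon p 1 8 11 (k2ξ k 0) =
        mon p 1 8 11 (k2c k) := by
      rw [mon_sq hd hf hp0]
      congr 1; funext c; fin_cases c <;> simp [k2ξ, k2c, hk] <;> ring
    have h := mon_rel (K := K) (p := p) (d := 1) (e := 8) (f := 11) hd hf (k2c k)
    rw [e0, e1, e2, e3, e4]
    linear_combination h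
  have hn : ∀ i, (mon p 1 8 11 (k2ξ k i) : L3 K) ≠ 0 := fun i => mon_ne_zero hd hf hp0 _
  have hfin := mon_finrank (K := K) (p := p) (e := 8) hd hf (k2ξ k) 0 (k2W k) (k2W_mul k)
  exact kl_wrap h2 (fun i => mon p 1 8 11 (k2ξ k i)) hF hn p hfin

/-- exponents, `p = 11 k + 6` -/
def k6ξ (k : ℤ) : Fin 5 → Fin 4 → ℤ :=
  ![![5, 7, 3 + 5 * k, 1 + 1 * k],
      ![-2, -2, 1, -1 - 3 * k],
      ![3, 5, -1 * k, 3 + 5 * k],
      ![1, 2, 1 + 1 * k, 1],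
      ![-3, -3, -1 - 3 * k, -1 * k]]

def k6W (k : ℤ) : Fin 4 → Fin 5 → ℤ :=
  ![![0, -11 - 22 * k, -8 - 11 * k, 11 + 22 * k, 6 + 11 * k],
      ![0, 8 + 16 * k, 6 + 8 * k, -9 - 18 * k, -4 - 7 * k],
      ![0, 2, 1, 0, -2],
      ![0, 0, 0, 2, -1]]

def k6c (k : ℤ) : Fin 4 → ℤ := ![-1, 1, 1 - 1 * k, 1 - 1 * k]

theorem k6W_mul (k : ℤ) (b : Fin 4) : ∑ a, k6W k b a • (k6ξ k a - k6ξ k 0) =
      (![![1, 0, 0, 0], ![0, 1, 0, 0], ![0, 0, 1, 0], ![0, 0, 0, 1]] : Fin 4 → Fin 4 → ℤ) b := by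
  funext c
  rw [Fin.sum_univ_five]
  fin_cases b <;> fin_cases c <;> simp [k6W, k6ξ] <;> ring

theorem k6_main (p : ℕ) [hp : Fact p.Prime] [CharP K p] (h2 : (2 : K) ≠ 0) (k : ℤ)
    (hk : (p : ℤ) = 11 * k + 6) :
    ∃ γ : Fin 5 → L3 K, aeval γ (kl K) = 0 ∧
      (∃ c : L3 K, aeval (Fin.cons c (Fin.tail γ) : Fin 5 → L3 K) (kl K) ≠ 0) ∧
      γ 0 ≠ 0 ∧
      Module.finrank (IntermediateField.adjoin K (Set.range fun i => γ i / γ 0)) (L3 K) = p := by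
  have hp0 : p ≠ 0 := hp.out.ne_zero
  have hd : (1 : ℕ) ≠ 0 := by norm_num
  have hf : (11 : ℕ) ≠ 0 := by norm_num
  have hF : aeval (fun i => (mon p 1 8 11 (k6ξ k i) : L3 K)) (kl K) = 0 := by
    rw [kl_aeval]
    have e0 : (mon p 1 8 11 (k6ξ k 0) : L3 K) ^ 2 * mon p 1 8 11 (k6ξ k 1) =
        mon p 1 8 11 (k6c k + ![(((1 : ℕ) : ℤ) + ((8 : ℕ) : ℤ)), ((11 : ℕ) : ℤ), (p : ℤ), 0]) := by
      rw [mon_sq hd hf hp0]
      congr 1; funext c; fin_cases c <;> simp [k6ξ, k6c, hk] <;> ring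
    have e1 : (mon p 1 8 11 (k6ξ k 1) : L3 K) ^ 2 * mon p 1 8 11 (k6ξ k 2) =
        mon p 1 8 11 (k6c k + ![0, 0, 1, 0]) := by
      rw [mon_sq hd hf hp0]
      congr 1; funext c; fin_cases c <;> simp [k6ξ, k6c, hk] <;> ring
    have e2 : (mon p 1 8 11 (k6ξ k 2) : L3 K) ^ 2 * mon p 1 8 11 (k6ξ k 3) =
        mon p 1 8 11 (k6c k + ![((8 : ℕ) : ℤ), ((11 : ℕ) : ℤ), 0, (p : ℤ)]) := by
      rw [mon_sq hd hf hp0]
      congr 1; funext c; fin_cases c <;> simp [k6ξ, k6c, hk] <;> ring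
    have e3 : (mon p 1 8 11 (k6ξ k 3) : L3 K) ^ 2 * mon p 1 8 11 (k6ξ k 4) =
        mon p 1 8 11 (k6c k + ![0, 0, 0, 1]) := by
      rw [mon_sq hd hf hp0]
      congr 1; funext c; fin_cases c <;> simp [k6ξ, k6c, hk] <;> ring
    have e4 : (mon p 1 8 11 (k6ξ k 4) : L3 K) ^ 2 * mon p 1 8 11 (k6ξ k 0) =
        mon p 1 8 11 (k6c k) := by
      rw [mon_sq hd hf hp0]
      congr 1; funext c; fin_cases c <;> simp [k6ξ, k6c, hk] <;> ring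
    have h := mon_rel (K := K) (p := p) (d := 1) (e := 8) (f := 11) hd hf (k6c k)
    rw [e0, e1, e2, e3, e4]
    linear_combination h
  have hn : ∀ i, (mon p 1 8 11 (k6ξ k i) : L3 K) ≠ 0 := fun i => mon_ne_zero hd hf hp0 _
  have hfin := mon_finrank (K := K) (p := p) (e := 8) hd hf (k6ξ k) 0 (k6W k) (k6W_mul k)
  exact kl_wrap h2 (fun i => mon p 1 8 11 (k6ξ k i)) hF hn p hfin

/-- exponents, `p = 11 k + 7` -/
def k7ξ (k : ℤ) : Fin 5 → Fin 4 → ℤ :=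
  ![![3, 3, 3 + 5 * k, -2 - 3 * k],
      ![5, 6, 0, 3 + 5 * k],
      ![0, 0, -1 - 1 * k, 0],
      ![1, 1, 1 + 1 * k, -1 - 1 * k],
      ![-1, -1, -2 - 3 * k, 1 + 1 * k]]

def k7W (k : ℤ) : Fin 4 → Fin 5 → ℤ :=
  ![![0, -1, -1, -14 - 22 * k, 7 + 11 * k],
      ![0, 1, 2 + 2 * k, 12 + 19 * k, -7 - 11 * k],
      ![0, 0, -2, 1, 1],
      ![0, 0, -2, -1, 2]]

def k7c (k : ℤ) : Fin 4 → ℤ := ![1, 1, -1 - 1 * k, -1 - 1 * k]

theorem k7W_mul (k : ℤ) (b : Fin 4) : ∑ a, k7W k b a • (k7ξ k a - k7ξ k 0) =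
      (![![1, 0, 0, 0], ![0, 1, 0, 0], ![0, 0, 1, 0], ![0, 0, 0, 1]] : Fin 4 → Fin 4 → ℤ) b := by
  funext c
  rw [Fin.sum_univ_five]
  fin_cases b <;> fin_cases c <;> simp [k7W, k7ξ] <;> ring

theorem k7_main (p : ℕ) [hp : Fact p.Prime] [CharP K p] (h2 : (2 : K) ≠ 0) (k : ℤ)
    (hk : (p : ℤ) = 11 * k + 7) :
    ∃ γ : Fin 5 → L3 K, aeval γ (kl K) = 0 ∧
      (∃ c : L3 K, aeval (Fin.cons c (Fin.tail γ) : Fin 5 → L3 K) (kl K) ≠ 0) ∧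
      γ 0 ≠ 0 ∧
      Module.finrank (IntermediateField.adjoin K (Set.range fun i => γ i / γ 0)) (L3 K) = p := by
  have hp0 : p ≠ 0 := hp.out.ne_zero
  have hd : (1 : ℕ) ≠ 0 := by norm_num
  have hf : (11 : ℕ) ≠ 0 := by norm_num
  have hF : aeval (fun i => (mon p 1 9 11 (k7ξ k i) : L3 K)) (kl K) = 0 := by
    rw [kl_aeval]
    have e0 : (mon p 1 9 11 (k7ξ k 0) : L3 K) ^ 2 * mon p 1 9 11 (k7ξ k 1) =
        mon p 1 9 11 (k7c k + ![(((1 : ℕ) : ℤ) + ((9 : ℕ) : ℤ)), ((11 : ℕ) : ℤ), (p : ℤ), 0]) := by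
      rw [mon_sq hd hf hp0]
      congr 1; funext c; fin_cases c <;> simp [k7ξ, k7c, hk] <;> ring
    have e1 : (mon p 1 9 11 (k7ξ k 1) : L3 K) ^ 2 * mon p 1 9 11 (k7ξ k 2) =
        mon p 1 9 11 (k7c k + ![((9 : ℕ) : ℤ), ((11 : ℕ) : ℤ), 0, (p : ℤ)]) := by
      rw [mon_sq hd hf hp0]
      congr 1; funext c; fin_cases c <;> simp [k7ξ, k7c, hk] <;> ring
    have e2 : (mon p 1 9 11 (k7ξ k 2) : L3 K) ^ 2 * mon p 1 9 11 (k7ξ k 3) =
        mon p 1 9 11 (k7c k) := by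
      rw [mon_sq hd hf hp0]
      congr 1; funext c; fin_cases c <;> simp [k7ξ, k7c, hk] <;> ring
    have e3 : (mon p 1 9 11 (k7ξ k 3) : L3 K) ^ 2 * mon p 1 9 11 (k7ξ k 4) =
        mon p 1 9 11 (k7c k + ![0, 0, 1, 0]) := by
      rw [mon_sq hd hf hp0]
      congr 1; funext c; fin_cases c <;> simp [k7ξ, k7c, hk] <;> ring
    have e4 : (mon p 1 9 11 (k7ξ k 4) : L3 K) ^ 2 * mon p 1 9 11 (k7ξ k 0) =
        mon p 1 9 11 (k7c k + ![0, 0, 0, 1]) := by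
      rw [mon_sq hd hf hp0]
      congr 1; funext c; fin_cases c <;> simp [k7ξ, k7c, hk] <;> ring
    have h := mon_rel (K := K) (p := p) (d := 1) (e := 9) (f := 11) hd hf (k7c k)
    rw [e0, e1, e2, e3, e4]
    linear_combination h
  have hn : ∀ i, (mon p 1 9 11 (k7ξ k i) : L3 K) ≠ 0 := fun i => mon_ne_zero hd hf hp0 _
  have hfin := mon_finrank (K := K) (p := p) (e := 9) hd hf (k7ξ k) 0 (k7W k) (k7W_mul k)
  exact kl_wrap h2 (fun i => mon p 1 9 11 (k7ξ k i)) hF hn p hfin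

/-- exponents, `p = 11 k + 8` -/
def k8ξ (k : ℤ) : Fin 5 → Fin 4 → ℤ :=
  ![![3, 3, 4 + 5 * k, -2 - 3 * k],
      ![5, 6, 0, 4 + 5 * k],
      ![0, 0, -1 * k, 0],
      ![1, 1, 1 + 1 * k, -1 * k],
      ![-1, -1, -2 - 3 * k, 1 + 1 * k]]

def k8W (k : ℤ) : Fin 4 → Fin 5 → ℤ :=
  ![![0, -1, -17 - 22 * k, 8 + 11 * k, 8 + 11 * k],
      ![0, 1, 14 + 18 * k, -8 - 11 * k, -6 - 8 * k],
      ![0, 0, 2, 1, -2],
      ![0, 0, 0, 2, -1]]

def k8c (k : ℤ) : Fin 4 → ℤ := ![1, 1, -1 * k, -1 * k]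

theorem k8W_mul (k : ℤ) (b : Fin 4) : ∑ a, k8W k b a • (k8ξ k a - k8ξ k 0) =
      (![![1, 0, 0, 0], ![0, 1, 0, 0], ![0, 0, 1, 0], ![0, 0, 0, 1]] : Fin 4 → Fin 4 → ℤ) b := by
  funext c
  rw [Fin.sum_univ_five]
  fin_cases b <;> fin_cases c <;> simp [k8W, k8ξ] <;> ring

theorem k8_main (p : ℕ) [hp : Fact p.Prime] [CharP K p] (h2 : (2 : K) ≠ 0) (k : ℤ)
    (hk : (p : ℤ) = 11 * k + 8) :
    ∃ γ : Fin 5 → L3 K, aeval γ (kl K) = 0 ∧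
      (∃ c : L3 K, aeval (Fin.cons c (Fin.tail γ) : Fin 5 → L3 K) (kl K) ≠ 0) ∧
      γ 0 ≠ 0 ∧
      Module.finrank (IntermediateField.adjoin K (Set.range fun i => γ i / γ 0)) (L3 K) = p := by
  have hp0 : p ≠ 0 := hp.out.ne_zero
  have hd : (1 : ℕ) ≠ 0 := by norm_num
  have hf : (11 : ℕ) ≠ 0 := by norm_num
  have hF : aeval (fun i => (mon p 1 9 11 (k8ξ k i) : L3 K)) (kl K) = 0 := by
    rw [kl_aeval]
    have e0 : (mon p 1 9 11 (k8ξ k 0) : L3 K) ^ 2 * mon p 1 9 11 (k8ξ k 1) =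
        mon p 1 9 11 (k8c k + ![(((1 : ℕ) : ℤ) + ((9 : ℕ) : ℤ)), ((11 : ℕ) : ℤ), (p : ℤ), 0]) := by
      rw [mon_sq hd hf hp0]
      congr 1; funext c; fin_cases c <;> simp [k8ξ, k8c, hk] <;> ring
    have e1 : (mon p 1 9 11 (k8ξ k 1) : L3 K) ^ 2 * mon p 1 9 11 (k8ξ k 2) =
        mon p 1 9 11 (k8c k + ![((9 : ℕ) : ℤ), ((11 : ℕ) : ℤ), 0, (p : ℤ)]) := by
      rw [mon_sq hd hf hp0]
      congr 1; funext c; fin_cases c <;> simp [k8ξ, k8c, hk] <;> ring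
    have e2 : (mon p 1 9 11 (k8ξ k 2) : L3 K) ^ 2 * mon p 1 9 11 (k8ξ k 3) =
        mon p 1 9 11 (k8c k + ![0, 0, 1, 0]) := by
      rw [mon_sq hd hf hp0]
      congr 1; funext c; fin_cases c <;> simp [k8ξ, k8c, hk] <;> ring
    have e3 : (mon p 1 9 11 (k8ξ k 3) : L3 K) ^ 2 * mon p 1 9 11 (k8ξ k 4) =
        mon p 1 9 11 (k8c k + ![0, 0, 0, 1]) := by
      rw [mon_sq hd hf hp0]
      congr 1; funext c; fin_cases c <;> simp [k8ξ, k8c, hk] <;> ring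
    have e4 : (mon p 1 9 11 (k8ξ k 4) : L3 K) ^ 2 * mon p 1 9 11 (k8ξ k 0) =
        mon p 1 9 11 (k8c k) := by
      rw [mon_sq hd hf hp0]
      congr 1; funext c; fin_cases c <;> simp [k8ξ, k8c, hk] <;> ring
    have h := mon_rel (K := K) (p := p) (d := 1) (e := 9) (f := 11) hd hf (k8c k)
    rw [e0, e1, e2, e3, e4]
    linear_combination h
  have hn : ∀ i, (mon p 1 9 11 (k8ξ k i) : L3 K) ≠ 0 := fun i => mon_ne_zero hd hf hp0 _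
  have hfin := mon_finrank (K := K) (p := p) (e := 9) hd hf (k8ξ k) 0 (k8W k) (k8W_mul k)
  exact kl_wrap h2 (fun i => mon p 1 9 11 (k8ξ k i)) hF hn p hfin

end Pool.Agent.Work.CubicOdd
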