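import Pool.Agent.Work.MP_2f0ece_helper84.Toric

/-!
# Laurent monomials in `T ^ p, V, B, D`
-/

set_option autoImplicit false

namespace Pool.Agent.Work.CubicOdd

open MvPolynomial

universe u

variable {K : Type u} [Field K]

/-- Laurent monomial in `T ^ p, V, B, D` -/
noncomputable def mon (p d e f : ℕ) (n : Fin 4 → ℤ) : L3 K :=
  (vr 0 ^ p) ^ n 0 * vr 1 ^ n 1 * tB p d e f ^ n 2 * tD p d e f ^ n 3

variable {p d e f : ℕ}

theorem mon_ne_zero (hd : d ≠ 0) (hf : f ≠ 0) (hp : p ≠ 0) (n : Fin 4 → ℤ) :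
    (mon p d e f n : L3 K) ≠ 0 := by
  rw [mon]
  exact mul_ne_zero (mul_ne_zero (mul_ne_zero (zpow_ne_zero _ (pow_ne_zero _ (vr_ne_zero 0)))
    (zpow_ne_zero _ (vr_ne_zero 1))) (zpow_ne_zero _ (tB_ne_zero hd hp)))
    (zpow_ne_zero _ (tD_ne_zero hd hf))

theorem mon_add (hd : d ≠ 0) (hf : f ≠ 0) (hp : p ≠ 0) (n m : Fin 4 → ℤ) :
    (mon p d e f (n + m) : L3 K) = mon p d e f n * mon p d e f m := by
  rw [mon, mon, mon]
  simp only [Pi.add_apply]
  rw [zpow_add₀ (pow_ne_zero _ (vr_ne_zero 0)), zpow_add₀ (vr_ne_zero 1),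
    zpow_add₀ (tB_ne_zero hd hp), zpow_add₀ (tD_ne_zero hd hf)]
  ring

theorem mon_zero : (mon p d e f 0 : L3 K) = 1 := by
  rw [mon]; simp

/-- `mon` as a homomorphism into the units -/
noncomputable def monU (hd : d ≠ 0) (hf : f ≠ 0) (hp : p ≠ 0) :
    Multiplicative (Fin 4 → ℤ) →* (L3 K)ˣ where
  toFun n := Units.mk0 (mon p d e f n.toAdd) (mon_ne_zero hd hf hp _)
  map_one' := by
    ext
    exact mon_zero
  map_mul' n m := by
    ext
    exact mon_add hd hf hp _ _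

theorem monU_val (hd : d ≠ 0) (hf : f ≠ 0) (hp : p ≠ 0) (n : Fin 4 → ℤ) :
    ((monU (K := K) (e := e) hd hf hp (Multiplicative.ofAdd n) : (L3 K)ˣ) : L3 K) =
      mon p d e f n := rfl

theorem mon_sub (hd : d ≠ 0) (hf : f ≠ 0) (hp : p ≠ 0) (n m : Fin 4 → ℤ) :
    (mon p d e f (n - m) : L3 K) = mon p d e f n / mon p d e f m := by
  rw [eq_div_iff (mon_ne_zero hd hf hp m), ← mon_add hd hf hp, sub_add_cancel]

theorem mon_comb (hd : d ≠ 0) (hf : f ≠ 0) (hp : p ≠ 0) (W : Fin 5 → ℤ) (v : Fin 5 → Fin 4 → ℤ) :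
    (mon p d e f (∑ a, W a • v a) : L3 K) = ∏ a, mon p d e f (v a) ^ W a := by
  have h1 := map_prod (monU (K := K) (e := e) hd hf hp)
    (fun a : Fin 5 => (Multiplicative.ofAdd (v a)) ^ W a) Finset.univ
  have h2 := congrArg (fun x : (L3 K)ˣ => (x : L3 K)) h1
  simp only [map_zpow, Units.coe_prod, Units.val_zpow_eq_zpow_val, monU_val] at h2
  rw [← h2]
  have h3 : (∏ a : Fin 5, (Multiplicative.ofAdd (v a)) ^ W a : Multiplicative (Fin 4 → ℤ)) =
      Multiplicative.ofAdd (∑ a, W a • v a) := by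
    rw [ofAdd_sum]; rfl
  rw [h3]; rfl

theorem mon_single0 : (mon p d e f ![1, 0, 0, 0] : L3 K) = vr 0 ^ p := by
  simp [mon]

theorem mon_single1 : (mon p d e f ![0, 1, 0, 0] : L3 K) = vr 1 := by
  simp [mon]

theorem mon_single2 : (mon p d e f ![0, 0, 1, 0] : L3 K) = tB p d e f := by
  simp [mon]

theorem mon_single3 : (mon p d e f ![0, 0, 0, 1] : L3 K) = tD p d e f := by
  simp [mon]

/-- the degree of a toric parametrization -/
theorem mon_finrank [hp : Fact p.Prime] [CharP K p] (hd : d ≠ 0) (hf : f ≠ 0)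
    (ξ : Fin 5 → Fin 4 → ℤ) (k : Fin 5) (W : Fin 4 → Fin 5 → ℤ)
    (hW : ∀ b : Fin 4, ∑ a, W b a • (ξ a - ξ k) =
      (![![1, 0, 0, 0], ![0, 1, 0, 0], ![0, 0, 1, 0], ![0, 0, 0, 1]] : Fin 4 → Fin 4 → ℤ) b) :
    Module.finrank (IntermediateField.adjoin K
      (Set.range fun i => (mon p d e f (ξ i) / mon p d e f (ξ k) : L3 K))) (L3 K) = p := by
  have hp0 : p ≠ 0 := hp.out.ne_zero
  set M := IntermediateField.adjoin K
      (Set.range fun i => (mon p d e f (ξ i) / mon p d e f (ξ k) : L3 K)) with hM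
  have h1 : ∀ b : Fin 4, (mon p d e f
      ((![![1, 0, 0, 0], ![0, 1, 0, 0], ![0, 0, 1, 0], ![0, 0, 0, 1]] : Fin 4 → Fin 4 → ℤ) b) :
        L3 K) ∈ M := by
    intro b
    rw [← hW b, mon_comb hd hf hp0]
    refine prod_mem fun a _ => zpow_mem ?_ _
    rw [mon_sub hd hf hp0]
    exact IntermediateField.subset_adjoin _ _ ⟨a, rfl⟩
  refine t_finrank (e := e) (f := f) hd M ?_ ?_ ?_ ?_ ?_
  · intro N n0 n1 n2 n3
    rw [hM, IntermediateField.adjoin_le_iff]
    rintro _ ⟨i, rfl⟩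
    have h2 : ∀ n : Fin 4 → ℤ, (mon p d e f n : L3 K) ∈ N := by
      intro n
      rw [mon]
      exact mul_mem (mul_mem (mul_mem (zpow_mem n0 _) (zpow_mem n1 _)) (zpow_mem n2 _))
        (zpow_mem n3 _)
    exact div_mem (h2 _) (h2 _)
  · rw [← mon_single0 (d := d) (e := e) (f := f)]; exact h1 0
  · rw [← mon_single1 (p := p) (d := d) (e := e) (f := f)]; exact h1 1
  · rw [← mon_single2 (p := p) (d := d) (e := e) (f := f)]; exact h1 2
  · rw [← mon_single3 (p := p) (d := d) (e := e) (f := f)]; exact h1 3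

/-- the sum of the five monomials vanishes -/
theorem mon_rel [hp : Fact p.Prime] [CharP K p] (hd : d ≠ 0) (hf : f ≠ 0) (c : Fin 4 → ℤ) :
    (mon p d e f (c + ![(d : ℤ) + e, f, p, 0]) + mon p d e f (c + ![0, 0, 1, 0]) +
      mon p d e f (c + ![(e : ℤ), f, 0, p]) + mon p d e f (c + ![0, 0, 0, 1]) + mon p d e f c : L3 K) =
        0 := by
  have hp0 : p ≠ 0 := hp.out.ne_zero
  have h := t_rel (K := K) (p := p) (d := d) (e := e) (f := f) hd
  rw [mon_add hd hf hp0, mon_add hd hf hp0, mon_add hd hf hp0, mon_add hd hf hp0]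
  have h1 : (mon p d e f ![(d : ℤ) + e, f, p, 0] : L3 K) =
      (tβ p e f * (vr 0 ^ p) ^ d) * tB p d e f ^ p := by
    simp only [mon, tβ, Matrix.cons_val_zero, Matrix.cons_val_one, Matrix.cons_val, zpow_zero,
      mul_one, zpow_natCast]
    rw [zpow_add₀ (pow_ne_zero _ (vr_ne_zero 0)), zpow_natCast, zpow_natCast]
    ring
  have h2 : (mon p d e f ![(e : ℤ), f, 0, p] : L3 K) = tβ p e f * tD p d e f ^ p := by
    simp only [mon, tβ, Matrix.cons_val_zero, Matrix.cons_val_one, Matrix.cons_val, zpow_zero,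
      mul_one, zpow_natCast]
  rw [h1, h2, mon_single2, mon_single3]
  linear_combination mon p d e f c * h

/-- a product of the shape `x ^ 2 y` -/
theorem mon_sq (hd : d ≠ 0) (hf : f ≠ 0) (hp : p ≠ 0) (n m : Fin 4 → ℤ) :
    (mon p d e f n : L3 K) ^ 2 * mon p d e f m = mon p d e f (n + n + m) := by
  rw [mon_add hd hf hp, mon_add hd hf hp]; ring

theorem mon_cube (hd : d ≠ 0) (hf : f ≠ 0) (hp : p ≠ 0) (n : Fin 4 → ℤ) :
    (mon p d e f n : L3 K) ^ 3 = mon p d e f (n + n + n) := by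
  rw [mon_add hd hf hp, mon_add hd hf hp]; ring

end Pool.Agent.Work.CubicOdd
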