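import Pool.Agent.Work.MP_2f0ece_helper84.CharThree2

/-!
# The toric criterion
-/

set_option autoImplicit false

namespace Pool.Agent.Work.CubicOdd

open MvPolynomial

universe u

section TStep

variable {K : Type u} [Field K] {L : Type*} [Field L] [Algebra K L]

theorem t_pow (p : ℕ) (hpL : (p : L) = 0) (x y : L) : (TrivSqZeroExt.inl x + TrivSqZeroExt.inr y :
    TrivSqZeroExt L L) ^ p = TrivSqZeroExt.inl (x ^ p) := by
  ext
  · simp
  · simp [TrivSqZeroExt.snd_pow, hpL]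

theorem t_powd (d : ℕ) (x : L) : (TrivSqZeroExt.inl x + TrivSqZeroExt.inr 1 :
    TrivSqZeroExt L L) ^ d = TrivSqZeroExt.inl (x ^ d) +
      TrivSqZeroExt.inr ((d : L) * x ^ (d - 1)) := by
  ext
  · simp
  · simp [TrivSqZeroExt.snd_pow]

theorem tB_step (Φ : L →ₐ[K] TrivSqZeroExt L L) (p d : ℕ) (hpL : (p : L) = 0) (T m β B w : L)
    (h0 : Φ T = TrivSqZeroExt.inl T + TrivSqZeroExt.inr 1)
    (h2 : Φ m = TrivSqZeroExt.inl m + TrivSqZeroExt.inr w)
    (hw : w = (d : L) * T ^ (d - 1) * B) (fβ : β ∈ fixF Φ)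
    (hB : B * (T ^ d - 1) = β * m ^ p + m + 1) (hne : T ^ d - 1 ≠ 0) : B ∈ fixF Φ := by
  have e1 := congrArg Φ hB
  rw [map_mul, map_sub, map_pow, map_one, map_add, map_add, map_mul, map_pow, map_one,
    (mem_fixF _ _).1 fβ, h0, t_powd, h2, t_pow p hpL] at e1
  have e2 := congrArg (TrivSqZeroExt.inl : L → TrivSqZeroExt L L) hB
  have e3 : (TrivSqZeroExt.inr w : TrivSqZeroExt L L) =
      TrivSqZeroExt.inl B * TrivSqZeroExt.inr ((d : L) * T ^ (d - 1)) := by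
    rw [TrivSqZeroExt.inl_mul_inr, hw, smul_eq_mul]
    congr 1; ring
  have e4 : (Φ B - TrivSqZeroExt.inl B) *
      (TrivSqZeroExt.inl (T ^ d) + TrivSqZeroExt.inr ((d : L) * T ^ (d - 1)) - 1) = 0 := by
    rw [e3] at e1
    simp only [TrivSqZeroExt.inl_add, TrivSqZeroExt.inl_mul, TrivSqZeroExt.inl_sub,
      TrivSqZeroExt.inl_one] at e1 e2
    linear_combination e1 - e2
  have hunit : IsUnit ((TrivSqZeroExt.inl (T ^ d) +
      TrivSqZeroExt.inr ((d : L) * T ^ (d - 1)) - 1 : TrivSqZeroExt L L)) := by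
    rw [TrivSqZeroExt.isUnit_iff_isUnit_fst, isUnit_iff_ne_zero]
    simp only [TrivSqZeroExt.fst_add, TrivSqZeroExt.fst_sub, TrivSqZeroExt.fst_inl,
      TrivSqZeroExt.fst_inr, TrivSqZeroExt.fst_one, add_zero]
    exact hne
  rw [mem_fixF]
  exact sub_eq_zero.1 ((hunit.mul_left_eq_zero).1 e4)

theorem tD_step (Φ : L →ₐ[K] TrivSqZeroExt L L) (d : ℕ) (T m B w : L)
    (h0 : Φ T = TrivSqZeroExt.inl T + TrivSqZeroExt.inr 1)
    (h2 : Φ m = TrivSqZeroExt.inl m + TrivSqZeroExt.inr w)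
    (hw : w = (d : L) * T ^ (d - 1) * B) (f2 : B ∈ fixF Φ) : m - T ^ d * B ∈ fixF Φ := by
  rw [mem_fixF, map_sub, map_mul, map_pow, (mem_fixF _ _).1 f2, h0, h2, t_powd]
  have e3 : (TrivSqZeroExt.inr w : TrivSqZeroExt L L) =
      TrivSqZeroExt.inr ((d : L) * T ^ (d - 1)) * TrivSqZeroExt.inl B := by
    rw [mul_comm, TrivSqZeroExt.inl_mul_inr, hw, smul_eq_mul]
    congr 1; ring
  rw [e3]
  simp only [TrivSqZeroExt.inl_mul, TrivSqZeroExt.inl_sub]
  ring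

end TStep

section Toric

variable {K : Type u} [Field K]

/-- the three variables in `K(X_0, X_1, X_2)` -/
noncomputable def vr (i : Fin 3) : L3 K := algebraMap (MvPolynomial (Fin 3) K) (L3 K) (X i)

theorem vr_ne_zero (i : Fin 3) : (vr i : L3 K) ≠ 0 := by
  rw [vr]
  intro h
  exact X_ne_zero (R := K) i ((IsFractionRing.injective (MvPolynomial (Fin 3) K) (L3 K))
    (by rw [h, map_zero]))

/-- `α = T ^ (p (d + e)) V ^ f`, `β = T ^ (p e) V ^ f` -/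
noncomputable def tβ (p e f : ℕ) : L3 K := (vr 0 ^ p) ^ e * vr 1 ^ f

noncomputable def tB (p d e f : ℕ) : L3 K :=
  (tβ p e f * vr 2 ^ p + vr 2 + 1) / (vr 0 ^ d - 1)

noncomputable def tD (p d e f : ℕ) : L3 K := vr 2 - vr 0 ^ d * tB p d e f

variable {p d e f : ℕ}

theorem eval_ne {P : MvPolynomial (Fin 3) K} (x : Fin 3 → K) (h : eval x P ≠ 0) :
    algebraMap (MvPolynomial (Fin 3) K) (L3 K) P ≠ 0 := by
  intro h1
  apply h
  have : P = 0 := (IsFractionRing.injective (MvPolynomial (Fin 3) K) (L3 K))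
    (by rw [h1, map_zero])
  rw [this, map_zero]

theorem den_ne_zero (hd : d ≠ 0) : (vr 0 ^ d - 1 : L3 K) ≠ 0 := by
  have := eval_ne (K := K) (P := X 0 ^ d - 1) ![0, 0, 0] (by simp [hd])
  simpa [vr] using this

theorem tB_ne_zero (hd : d ≠ 0) (hp : p ≠ 0) : (tB p d e f : L3 K) ≠ 0 := by
  rw [tB]
  refine div_ne_zero ?_ (den_ne_zero hd)
  have := eval_ne (K := K) (P := (X 0 ^ p) ^ e * X 1 ^ f * X 2 ^ p + X 2 + 1) ![0, 0, 0]
    (by simp [hp])
  simpa [vr, tβ] using this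

theorem tB_mul (hd : d ≠ 0) : (tB p d e f : L3 K) * (vr 0 ^ d - 1) =
    tβ p e f * vr 2 ^ p + vr 2 + 1 := by
  rw [tB, div_mul_cancel₀ _ (den_ne_zero hd)]

theorem tD_ne_zero (hd : d ≠ 0) (hf : f ≠ 0) : (tD p d e f : L3 K) ≠ 0 := by
  intro h
  have h1 : (vr 2 * (vr 0 ^ d - 1) - vr 0 ^ d * (tβ p e f * vr 2 ^ p + vr 2 + 1) : L3 K) = 0 := by
    rw [← tB_mul hd]
    have : (vr 2 : L3 K) - vr 0 ^ d * tB p d e f = 0 := h
    linear_combination (vr 0 ^ d - 1) * this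
  have := eval_ne (K := K) (P := X 2 * (X 0 ^ d - 1) -
    X 0 ^ d * ((X 0 ^ p) ^ e * X 1 ^ f * X 2 ^ p + X 2 + 1)) ![1, 0, 0] (by simp [hf])
  apply this
  simpa [vr, tβ] using h1

/-- the basic relation `α B ^ p + β D ^ p + B + D + 1 = 0` -/
theorem t_rel [hp : Fact p.Prime] [CharP K p] (hd : d ≠ 0) :
    (tβ p e f * (vr 0 ^ p) ^ d) * tB p d e f ^ p + tβ p e f * tD p d e f ^ p + tB p d e f +
      tD p d e f + (1 : L3 K) = 0 := by
  have hcL : CharP (L3 K) p := charP_of_injective_algebraMap (algebraMap K (L3 K)).injective p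
  have h1 : (tD p d e f : L3 K) ^ p = vr 2 ^ p - (vr 0 ^ p) ^ d * tB p d e f ^ p := by
    rw [tD, sub_pow_char, mul_pow, ← pow_mul, ← pow_mul, mul_comm d p]
  rw [h1]
  have h2 := tB_mul (K := K) (p := p) (d := d) (e := e) (f := f) hd
  rw [tD]
  linear_combination -h2

/-- The degree over the field generated by `T ^ p, V, B, D`. -/
theorem t_finrank [hp : Fact p.Prime] [CharP K p] (hd : d ≠ 0) (M : IntermediateField K (L3 K))
    (hM : ∀ N : IntermediateField K (L3 K), vr 0 ^ p ∈ N → vr 1 ∈ N → tB p d e f ∈ N →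
      tD p d e f ∈ N → M ≤ N)
    (m0 : vr 0 ^ p ∈ M) (m1 : vr 1 ∈ M) (m2 : tB p d e f ∈ M) (m3 : tD p d e f ∈ M) :
    Module.finrank M (L3 K) = p := by
  have hcL : CharP (L3 K) p := charP_of_injective_algebraMap (algebraMap K (L3 K)).injective p
  have hpL : ((p : ℕ) : L3 K) = 0 := CharP.cast_eq_zero (L3 K) p
  obtain ⟨w, hw⟩ : ∃ w : L3 K, w = (d : L3 K) * vr 0 ^ (d - 1) * tB p d e f := ⟨_, rfl⟩
  obtain ⟨Φ, hΦ⟩ := exists_dual (K := K) ![1, 0, w]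
  have h0 : Φ (vr 0) = TrivSqZeroExt.inl (vr 0) + TrivSqZeroExt.inr 1 := hΦ 0
  have h1 : Φ (vr 1) = TrivSqZeroExt.inl (vr 1) := by
    refine (hΦ 1).trans ?_
    simp
    rfl
  have h2 : Φ (vr 2) = TrivSqZeroExt.inl (vr 2) + TrivSqZeroExt.inr w := hΦ 2
  have f0 : (vr 0 ^ p : L3 K) ∈ fixF Φ := by
    rw [mem_fixF, map_pow, h0, t_pow p hpL]
  have f1 : (vr 1 : L3 K) ∈ fixF Φ := h1
  have fβ : (tβ p e f : L3 K) ∈ fixF Φ := mul_mem (pow_mem f0 e) (pow_mem f1 f)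
  have f2 : (tB p d e f : L3 K) ∈ fixF Φ :=
    tB_step Φ p d hpL (vr 0) (vr 2) (tβ p e f) _ w h0 h2 hw fβ (tB_mul hd) (den_ne_zero hd)
  have f3 : (tD p d e f : L3 K) ∈ fixF Φ :=
    tD_step Φ d (vr 0) (vr 2) _ w h0 h2 hw f2
  apply finrank_eq_of_dual p Φ M (hM _ f0 f1 f2 f3) (vr 0) ?_ m0 ?_
  · intro h
    rw [mem_fixF, h0] at h
    have := congrArg TrivSqZeroExt.snd h
    simp at this
  · intro N hMN hT
    apply eq_top_of_X
    intro i
    fin_cases i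
    · exact hT
    · exact hMN m1
    · have e1 : (vr 2 : L3 K) = tD p d e f + vr 0 ^ d * tB p d e f := by rw [tD]; ring
      exact (show (vr 2 : L3 K) ∈ N from e1 ▸ add_mem (hMN m3) (mul_mem (pow_mem hT d) (hMN m2)))

end Toric

end Pool.Agent.Work.CubicOdd
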