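import Pool.Agent.Work.MP_2f0ece_helper84.Kernel

/-!
# The cone over a parametrization
-/

set_option autoImplicit false

namespace Pool.Agent.Work.CubicOdd

open MvPolynomial

universe u

variable {K : Type u} [Field K]

theorem three_le_trdeg : (3 : Cardinal.{u}) ≤ Algebra.trdeg K (L3 K) := by
  have h : AlgebraicIndependent K
      (fun i : Fin 3 => algebraMap (MvPolynomial (Fin 3) K) (L3 K) (X i)) := by
    have h1 := (MvPolynomial.algebraicIndependent_X (Fin 3) K)
    exact h1.map' (f := Algebra.algHom K (MvPolynomial (Fin 3) K) (L3 K))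
      (IsFractionRing.injective _ _)
  have h2 := h.lift_cardinalMk_le_trdeg
  simpa using h2

theorem four_le_trdeg : (4 : Cardinal.{u}) ≤ Algebra.trdeg K (RatFunc (L3 K)) := by
  have h1 := trdeg_add_eq K (L3 K) (A := RatFunc (L3 K))
  have h2 : (1 : Cardinal.{u}) ≤ Algebra.trdeg (L3 K) (RatFunc (L3 K)) := by
    have h : AlgebraicIndependent (L3 K) (fun _ : Unit => (RatFunc.X : RatFunc (L3 K))) := by
      rw [algebraicIndependent_unique_type_iff]
      exact RatFunc.transcendental_X
    have h3 := h.lift_cardinalMk_le_trdeg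
    simpa using h3
  rw [← h1]
  calc (4 : Cardinal.{u}) = 3 + 1 := by norm_num
    _ ≤ _ := add_le_add three_le_trdeg h2

/-- scaling of a zero of a homogeneous polynomial -/
theorem aeval_scale {σ E : Type*} [CommRing E] [Algebra K E] {n : ℕ} (F : MvPolynomial σ K)
    (hF : F.IsHomogeneous n) (s : E) (g : σ → E) :
    aeval (fun i => s * g i) F = s ^ n * aeval g F := by
  rw [aeval_def, aeval_def, eval₂_eq, eval₂_eq, Finset.mul_sum]
  refine Finset.sum_congr rfl fun d hd => ?_
  have h1 : d.degree = n := by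
    by_contra h
    exact (mem_support_iff.1 hd) (hF.coeff_eq_zero h)
  have h2 : ∏ i ∈ d.support, (s * g i) ^ d i = s ^ n * ∏ i ∈ d.support, g i ^ d i := by
    simp_rw [mul_pow]
    rw [Finset.prod_mul_distrib, Finset.prod_pow_eq_pow_sum, ← h1]
    rfl
  rw [h2]; ring

section Cone

variable (γ : Fin 5 → L3 K)

/-- the generic point of the cone -/
noncomputable def cone (i : Fin 5) : RatFunc (L3 K) :=
  RatFunc.X * algebraMap (L3 K) (RatFunc (L3 K)) (γ i)

theorem aeval_algebraMap_comp (F : MvPolynomial (Fin 5) K) :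
    aeval (fun i => algebraMap (L3 K) (RatFunc (L3 K)) (γ i)) F =
      algebraMap (L3 K) (RatFunc (L3 K)) (aeval γ F) := by
  exact (MvPolynomial.aeval_algebraMap_apply (RatFunc (L3 K)) γ F)

theorem aeval_cone (F : MvPolynomial (Fin 5) K) (n : ℕ) (hF : F.IsHomogeneous n) :
    aeval (cone γ) F = RatFunc.X ^ n * algebraMap (L3 K) (RatFunc (L3 K)) (aeval γ F) := by
  have := aeval_scale F hF (RatFunc.X : RatFunc (L3 K))
    (fun i => algebraMap (L3 K) (RatFunc (L3 K)) (γ i))
  rw [aeval_algebraMap_comp] at this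
  exact this

theorem cone_algebraic (F : MvPolynomial (Fin 5) K) (hF : F.IsHomogeneous 3)
    (h0 : aeval γ F = 0) (c : L3 K) (hc : aeval (Fin.cons c (Fin.tail γ) : Fin 5 → L3 K) F ≠ 0)
    (k : Fin 5) (hk : γ k ≠ 0)
    (halg : Algebra.IsAlgebraic (IntermediateField.adjoin K (Set.range fun i => γ i / γ k))
      (L3 K)) :
    Algebra.IsAlgebraic
      (IntermediateField.adjoin K (Set.range fun j : Fin 4 => cone γ j.succ))
      (RatFunc (L3 K)) := by
  set N := IntermediateField.adjoin K (Set.range fun j : Fin 4 => cone γ j.succ) with hN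
  set E := RatFunc (L3 K) with hE
  let Ω : IntermediateField N E := algebraicClosure N E
  have hX : (RatFunc.X : E) ≠ 0 := RatFunc.X_ne_zero
  -- the coordinates of the cone are algebraic over N
  have hsucc : ∀ j : Fin 4, cone γ j.succ ∈ Ω := by
    intro j
    have h1 : cone γ j.succ ∈ N := IntermediateField.subset_adjoin _ _ ⟨j, rfl⟩
    exact Ω.algebraMap_mem ⟨_, h1⟩
  have hzero : cone γ 0 ∈ Ω := by
    rw [mem_algebraicClosure_iff]
    let y : Fin 4 → N := fun j => ⟨cone γ j.succ, IntermediateField.subset_adjoin _ _ ⟨j, rfl⟩⟩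
    let Q : Polynomial N := (finSuccEquiv K 4 F).map (aeval y : MvPolynomial (Fin 4) K →ₐ[K] N)
    have hev : ∀ x : E, Polynomial.aeval x Q =
        aeval (Fin.cons x (fun j : Fin 4 => cone γ j.succ) : Fin 5 → E) F := by
      intro x
      rw [aeval_cons, Polynomial.aeval_def, Polynomial.eval₂_map]
      congr 1
      apply MvPolynomial.ringHom_ext
      · intro r
        simp [← IsScalarTower.algebraMap_apply]
      · intro j
        simp [y]
        rfl
    have hcons : (Fin.cons (cone γ 0) (fun j : Fin 4 => cone γ j.succ) : Fin 5 → E) = cone γ := by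
      funext i
      refine Fin.cases ?_ (fun j => ?_) i
      · rfl
      · rfl
    have hcons2 : (Fin.cons (RatFunc.X * algebraMap (L3 K) E c)
        (fun j : Fin 4 => cone γ j.succ) : Fin 5 → E) = cone (Fin.cons c (Fin.tail γ)) := by
      funext i
      refine Fin.cases ?_ (fun j => ?_) i
      · rfl
      · rfl
    refine ⟨Q, ?_, ?_⟩
    · intro hQ
      have h1 := hev (RatFunc.X * algebraMap (L3 K) E c)
      rw [hQ, map_zero, hcons2, aeval_cone _ F 3 hF] at h1
      have h2 := h1.symm
      rw [mul_eq_zero, or_iff_right (pow_ne_zero 3 hX)] at h2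
      exact hc ((injective_iff_map_eq_zero _).1 (algebraMap (L3 K) E).injective _ h2)
    · rw [hev, hcons, aeval_cone _ F 3 hF, h0, map_zero, mul_zero]
  have hall : ∀ i : Fin 5, cone γ i ∈ Ω := by
    intro i
    refine Fin.cases hzero (fun j => hsucc j) i
  have hratio : ∀ i : Fin 5, algebraMap (L3 K) E (γ i / γ k) ∈ Ω := by
    intro i
    have h1 : algebraMap (L3 K) E (γ i / γ k) = cone γ i / cone γ k := by
      rw [cone, cone, map_div₀, mul_div_mul_left _ _ hX]
    rw [h1]
    exact Ω.div_mem (hall i) (hall k)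
  have hM : ∀ a ∈ IntermediateField.adjoin K (Set.range fun i => γ i / γ k),
      algebraMap (L3 K) E a ∈ Ω := by
    intro a ha
    induction ha using IntermediateField.adjoin_induction with
    | mem x hx => obtain ⟨i, rfl⟩ := hx; exact hratio i
    | algebraMap x =>
      rw [← IsScalarTower.algebraMap_apply K (L3 K) E, IsScalarTower.algebraMap_apply K N E]
      exact Ω.algebraMap_mem _
    | add x y _ _ hx hy => rw [map_add]; exact Ω.add_mem hx hy
    | inv x _ hx => rw [map_inv₀]; exact Ω.inv_mem hx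
    | mul x y _ _ hx hy => rw [map_mul]; exact Ω.mul_mem hx hy
  have hΩcl : ∀ x : E, IsAlgebraic Ω x → x ∈ Ω := by
    intro x hx
    rw [mem_algebraicClosure_iff]
    exact hx.restrictScalars N
  have hL : ∀ a : L3 K, algebraMap (L3 K) E a ∈ Ω := by
    intro a
    apply hΩcl
    set M := IntermediateField.adjoin K (Set.range fun i => γ i / γ k)
    obtain ⟨q, hq0, hq⟩ := halg.isAlgebraic a
    let j : M →+* Ω :=
      ((algebraMap (L3 K) E).comp (algebraMap M (L3 K))).codRestrict Ω.toSubalgebra.toSubring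
        (fun x => hM x x.2)
    refine ⟨q.map j, ?_, ?_⟩
    · exact (Polynomial.map_ne_zero_iff j.injective).2 hq0
    · rw [Polynomial.aeval_def, Polynomial.eval₂_map]
      have h5 : (algebraMap Ω E).comp j = (algebraMap (L3 K) E).comp (algebraMap M (L3 K)) := by
        ext x; rfl
      rw [h5, ← Polynomial.hom_eval₂, ← Polynomial.aeval_def, hq, map_zero]
  have hs : (RatFunc.X : E) ∈ Ω := by
    have h1 : (RatFunc.X : E) = cone γ k / algebraMap (L3 K) E (γ k) := by
      rw [cone, mul_div_cancel_right₀]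
      exact (map_ne_zero _).2 hk
    rw [h1]
    exact Ω.div_mem (hall k) (hL _)
  have hpol : ∀ q : Polynomial (L3 K), algebraMap (Polynomial (L3 K)) E q ∈ Ω := by
    intro q
    induction q using Polynomial.induction_on with
    | C a =>
      have : algebraMap (Polynomial (L3 K)) E (Polynomial.C a) = algebraMap (L3 K) E a := by
        rw [IsScalarTower.algebraMap_apply (L3 K) (Polynomial (L3 K)) E]; rfl
      rw [this]; exact hL a
    | add p q hp hq => rw [map_add]; exact Ω.add_mem hp hq
    | monomial n a hq =>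
      rw [pow_succ, ← mul_assoc, map_mul, RatFunc.algebraMap_X]
      exact Ω.mul_mem hq hs
  refine ⟨fun x => ?_⟩
  obtain ⟨p, q, hq, rfl⟩ := IsFractionRing.div_surjective (A := Polynomial (L3 K)) x
  have := Ω.div_mem (hpol p) (hpol q)
  rwa [mem_algebraicClosure_iff] at this

open scoped IntermediateField.algebraAdjoinAdjoin in
theorem cone_algebraicIndependent (F : MvPolynomial (Fin 5) K) (hF : F.IsHomogeneous 3)
    (h0 : aeval γ F = 0) (c : L3 K) (hc : aeval (Fin.cons c (Fin.tail γ) : Fin 5 → L3 K) F ≠ 0)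
    (k : Fin 5) (hk : γ k ≠ 0)
    (halg : Algebra.IsAlgebraic (IntermediateField.adjoin K (Set.range fun i => γ i / γ k))
      (L3 K)) :
    AlgebraicIndependent K (fun j : Fin 4 => cone γ j.succ) := by
  have h1 := cone_algebraic γ F hF h0 c hc k hk halg
  have h2 : Algebra.IsAlgebraic (Algebra.adjoin K (Set.range fun j : Fin 4 => cone γ j.succ))
      (RatFunc (L3 K)) := by
    rw [IsFractionRing.comap_isAlgebraic_iff
      (K := IntermediateField.adjoin K (Set.range fun j : Fin 4 => cone γ j.succ))]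
    exact h1
  have h3 : Cardinal.lift.{u, 0} (Cardinal.mk (Fin 4)) ≤
      Cardinal.lift.{0, u} (Algebra.trdeg K (RatFunc (L3 K))) := by
    simpa using four_le_trdeg (K := K)
  exact (Algebra.IsAlgebraic.isTranscendenceBasis_of_lift_le_trdeg_of_finite K _ h3).1

theorem cone_kernel (F : MvPolynomial (Fin 5) K) (hF : F.IsHomogeneous 3) (hirr : Irreducible F)
    (h0 : aeval γ F = 0) (c : L3 K) (hc : aeval (Fin.cons c (Fin.tail γ) : Fin 5 → L3 K) F ≠ 0)
    (k : Fin 5) (hk : γ k ≠ 0)
    (halg : Algebra.IsAlgebraic (IntermediateField.adjoin K (Set.range fun i => γ i / γ k))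
      (L3 K)) (H : MvPolynomial (Fin 5) K) (hH : aeval (cone γ) H = 0) : F ∣ H := by
  have h1 := cone_algebraicIndependent γ F hF h0 c hc k hk halg
  have hcons : (Fin.cons (cone γ 0) (fun j : Fin 4 => cone γ j.succ) : Fin 5 → RatFunc (L3 K)) =
      cone γ := by
    funext i
    refine Fin.cases ?_ (fun j => ?_) i
    · rfl
    · rfl
  refine dvd_of_aeval_eq_zero (cone γ 0) (fun j : Fin 4 => cone γ j.succ) h1 F hirr ?_ H ?_
  · rw [hcons, aeval_cone _ F 3 hF, h0, map_zero, mul_zero]
  · rw [hcons, hH]

end Cone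

end Pool.Agent.Work.CubicOdd
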